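import Pool.Agent.PDQ.Gp

set_option autoImplicit false

/-!
# PDQ: tails of cycles of length at least three
-/

open Polynomial Height Height.AdmissibleAbsValues NumberField IsDedekindDomain
open scoped WithZero

noncomputable section

namespace Pool.Agent.PDQ

open Pool.Agent.PDP (wb Sg)

/-- the length of a tail of a cycle of length `n ≥ 3` is at most `(B + 1) n` -/
theorem tail_le (hG : HMW.T_KGU) (K : Type) [Field K] [NumberField K] (A : Finset K)
    (hA0 : ∀ a ∈ A, a ≠ 0) (M : ℕ) (hM : 5 ≤ M) : ∃ B : ℕ, ∀ (f : K → K) (T : Set K),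
    Sys A M f T → ∀ (x : K) (n t : ℕ), x ∈ T → 3 ≤ n →
    Function.minimalPeriod f (f^[t + 1] x) = n →
    f^[t] x ∉ Function.periodicPts f → t + 1 ≤ (B + 1) * n := by
  classical
  obtain ⟨B, hB⟩ := wb hG K A hA0 M hM
  refine ⟨B, fun f T h x n t hxT hn hper hnot => ?_⟩
  have hn0 : 0 < n := by omega
  set u : ℕ → K := fun i => f^[i] x with hu
  have hnp : ∀ i, i ≤ t → u i ∉ Function.periodicPts f := by
    intro i hi hmem
    apply hnot
    obtain ⟨k, rfl⟩ := Nat.exists_eq_add_of_le hi
    rw [add_comm i k, Function.iterate_add_apply]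
    obtain ⟨m, hm, hmm⟩ := hmem
    refine ⟨m, hm, ?_⟩
    change f^[m] (f^[k] (f^[i] x)) = _
    rw [← Function.iterate_add_apply, add_comm m k, Function.iterate_add_apply]
    exact congrArg _ hmm
  -- different points
  have hne' : ∀ i j, i ≤ t → i < j → u i ≠ u j := by
    intro i j hi hij he
    apply hnp i hi
    refine ⟨j - i, by omega, ?_⟩
    change f^[j - i] (f^[i] x) = f^[i] x
    rw [← Function.iterate_add_apply, Nat.sub_add_cancel hij.le]
    exact he.symm
  have hne : ∀ i j, i ≤ t → j ≤ t → i ≠ j → u i ≠ u j := by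
    intro i j hi hj hij
    rcases lt_or_gt_of_ne hij with h1 | h1
    · exact hne' i j hi h1
    · exact (hne' j i hj h1).symm
  have hone : ∀ (v : HeightOneSpectrum (𝓞 K)), GP (v.valuation K) f →
      ∃ C, ∀ i j, i ≤ t → j ≤ t → i % n ≠ j % n → v.valuation K (u i - u j) = C := by
    intro v hv
    obtain ⟨C, hC⟩ := gp_tail hv
    have hone' : ∀ i j, i ≤ t → i < j → ¬ n ∣ (j - i) → v.valuation K (u i - u j) = C := by
      intro i j hi hij hnd
      have e : u j = f^[j - i] (u i) := by
        simp only [hu]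
        rw [← Function.iterate_add_apply, Nat.sub_add_cancel hij.le]
      rw [e]
      refine hC _ (t + 1 - i) n _ hn0 ?_ (hnp i hi) hnd
      simp only [hu]
      rw [← Function.iterate_add_apply, show t + 1 - i + i = t + 1 by omega]
      exact hper
    refine ⟨C, fun i j hi hj hij => ?_⟩
    have key : ∀ a b : ℕ, a < b → a % n ≠ b % n → ¬ n ∣ (b - a) := by
      intro a b hab hmod hdv
      exact hmod ((Nat.modEq_iff_dvd' hab.le).2 hdv)
    rcases lt_trichotomy i j with h1 | h1 | h1
    · exact hone' i j hi h1 (key i j h1 hij)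
    · exact absurd (by rw [h1]) hij
    · rw [Valuation.map_sub_swap]
      exact hone' j i hj h1 (key j i h1 hij.symm)
  have hpow : ∀ i j i' j' : ℕ, i ≤ t → j ≤ t → i' ≤ t → j' ≤ t → i % n ≠ j % n →
      i' % n ≠ j' % n → ∃ a ∈ A, ∃ z : K, z ≠ 0 ∧
      u i - u j = a * z ^ M * (u i' - u j') := by
    intro i j i' j' hi hj hi' hj' hij hij'
    refine h.pow _ (h.it hxT i) _ (h.it hxT j) _ (h.it hxT i') _ (h.it hxT j')
      (hne i j hi hj fun he => hij (by rw [he])) (hne i' j' hi' hj' fun he => hij' (by rw [he]))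
      fun v hv => ?_
    obtain ⟨C, hC⟩ := hone v hv
    rw [hC i j hi hj hij, hC i' j' hi' hj' hij']
  -- the two sets
  obtain ⟨s, hs⟩ : ∃ s, s = (t + 1) / n := ⟨_, rfl⟩
  have hsn : n * s ≤ t + 1 := by rw [hs]; exact Nat.mul_div_le _ _
  have hidx : ∀ a r, a < s → r < 3 → n * a + r ≤ t := by
    intro a r ha hr
    have h1 : n * (a + 1) ≤ n * s := Nat.mul_le_mul_left _ ha
    have h2 : n * (a + 1) = n * a + n := by ring
    omega
  have hmod : ∀ a r, r < 3 → (n * a + r) % n = r := by
    intro a r hr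
    rw [Nat.mul_add_mod, Nat.mod_eq_of_lt (by omega)]
  have hcard : ∀ r, r = 1 ∨ r = 2 → ((Finset.range s).image fun a =>
      u 0 - u (n * a + r)).card = s := by
    intro r hr
    rw [Finset.card_image_of_injOn, Finset.card_range]
    intro a ha a' ha' he
    rw [Finset.mem_coe, Finset.mem_range] at ha ha'
    have i1 := hidx a r ha (by omega)
    have i2 := hidx a' r ha' (by omega)
    by_contra hcon
    refine hne _ _ i1 i2 ?_ (sub_right_injective he)
    intro he2
    exact hcon (Nat.eq_of_mul_eq_mul_left hn0 (by omega : n * a = n * a'))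
  have hnz : ∀ r, r = 1 ∨ r = 2 → ∀ p ∈ (Finset.range s).image fun a =>
      u 0 - u (n * a + r), p ≠ 0 := by
    intro r hr p hp
    obtain ⟨a, ha, rfl⟩ := Finset.mem_image.1 hp
    rw [Finset.mem_range] at ha
    exact sub_ne_zero.2 (hne 0 _ (Nat.zero_le _) (hidx a r ha (by omega)) (by omega))
  have hfin := hB ((Finset.range s).image fun a => u 0 - u (n * a + 1))
    ((Finset.range s).image fun a => u 0 - u (n * a + 2)) (hnz 1 (Or.inl rfl))
    (hnz 2 (Or.inr rfl)) (by
    intro p hp q hq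
    obtain ⟨a, ha, rfl⟩ := Finset.mem_image.1 hp
    obtain ⟨a', ha', rfl⟩ := Finset.mem_image.1 hq
    rw [Finset.mem_range] at ha ha'
    have i1 := hidx a 1 ha (by norm_num)
    have i2 := hidx a' 2 ha' (by norm_num)
    have m1 := hmod a 1 (by norm_num)
    have m2 := hmod a' 2 (by norm_num)
    have m0 : 0 % n = 0 := Nat.zero_mod n
    have hne2 : u 0 - u (n * a' + 2) ≠ 0 :=
      sub_ne_zero.2 (hne 0 _ (Nat.zero_le _) i2 (by omega))
    refine ⟨?_, ?_⟩
    · obtain ⟨α, hα, z, -, he⟩ := hpow 0 (n * a + 1) 0 (n * a' + 2) (Nat.zero_le _) i1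
        (Nat.zero_le _) i2 (by omega) (by omega)
      exact ⟨α, hα, z, by rw [he, mul_div_cancel_right₀ _ hne2]⟩
    · obtain ⟨α, hα, z, -, he⟩ := hpow (n * a + 1) (n * a' + 2) 0 (n * a' + 2) i1 i2
        (Nat.zero_le _) i2 (by omega) (by omega)
      refine ⟨α, hα, z, ?_⟩
      rw [eq_comm, ← mul_div_cancel_right₀ (α * z ^ M) hne2, ← he]
      field_simp
      ring)
  rw [hcard 1 (Or.inl rfl), hcard 2 (Or.inr rfl), or_self] at hfin
  have h1 : t + 1 < n * (s + 1) := by
    rw [hs]
    exact Nat.lt_mul_div_succ _ hn0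
  calc t + 1 ≤ n * (s + 1) := h1.le
    _ ≤ n * (B + 1) := Nat.mul_le_mul_left _ (by omega)
    _ = (B + 1) * n := mul_comm _ _

end Pool.Agent.PDQ
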