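import Pool.Agent.PDQ.Cycle
import Pool.Agent.PDQ.Tail
import Pool.Agent.PDP.Count

set_option autoImplicit false

/-!
# PDQ: counting the points with bounded tail and bounded cycle
-/

open Polynomial NumberField IsDedekindDomain
open scoped WithZero Nat

noncomputable section

namespace Pool.Agent.PDQ

open Pool.Agent.PDP

lemma fg_zero {K : Type} [Field K] (f : K[X]) : fg f 0 = fun x => f.eval x := by
  funext x
  rw [fg, add_zero]

/-- all prime powers dividing `q` divide `B!` if they are bounded by `B` -/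
lemma dvd_fac {q B : ℕ} (h : ∀ p j : ℕ, p.Prime → 0 < j → p ^ j ∣ q → p ^ j ≤ B) : q ∣ B ! := by
  rw [Nat.dvd_iff_prime_pow_dvd_dvd]
  intro p j hp hpj
  rcases Nat.eq_zero_or_pos j with rfl | hj
  · rw [pow_zero]
    exact one_dvd _
  · exact Nat.dvd_factorial (pow_pos hp.pos _) (h p j hp hj hpj)

lemma per_it {α : Type*} {f : α → α} {x : α} (hx : x ∈ Function.periodicPts f) (t : ℕ) :
    f^[t] x ∈ Function.periodicPts f := by
  obtain ⟨m, hm, hmm⟩ := hx
  refine ⟨m, hm, ?_⟩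
  change f^[m] (f^[t] x) = _
  rw [← Function.iterate_add_apply, add_comm m t, Function.iterate_add_apply]
  exact congrArg _ hmm

/-- odd parts of the cycle lengths and the number of points -/
theorem main12 (hG : HMW.T_KGU) (K : Type) [Field K] [NumberField K] (A : Finset K)
    (hA0 : ∀ a ∈ A, a ≠ 0) (M : ℕ) (hM : 5 ≤ M) : ∃ B : ℕ, ∀ (f : K[X]) (T : Set K),
    2 ≤ f.natDegree → Sys A M (fg f 0) T → (∀ x, Pre f 0 x → x ∈ T) →
    (∀ x ∈ Function.periodicPts (fg f 0), ∀ q : ℕ, Odd q →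
      q ∣ Function.minimalPeriod (fg f 0) x → q ≤ B) ∧
    ∀ r : ℕ, {x : K | ∃ k n : ℕ,
      Function.minimalPeriod (fg f 0) ((fg f 0)^[k] x) = n ∧ 0 < n ∧ (k = 0 ∨ 3 ≤ n) ∧
      (¬ 2 ^ r ∣ n ∨ 2 ∣ M)}.encard ≤ ((f.natDegree ^ (B * 2 ^ r) : ℕ) : ℕ∞) := by
  classical
  obtain ⟨B₁, hB₁⟩ := odd_pow hG K A hA0 M hM
  obtain ⟨B₂, hB₂⟩ : ∃ B₂ : ℕ, 2 ∣ M → ∀ (f : K → K) (T : Set K),
      Sys A M f T → ∀ (x : K) (n : ℕ), x ∈ T → 0 < n →
      Function.minimalPeriod f x = n → ∀ k : ℕ, 2 ^ k ∣ n → 2 ^ k ≤ B₂ := by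
    by_cases h2 : 2 ∣ M
    · obtain ⟨B₂, hB₂⟩ := two_pow hG K A hA0 M hM h2
      exact ⟨B₂, fun _ => hB₂⟩
    · exact ⟨0, fun h => absurd h h2⟩
  obtain ⟨B₃, hB₃⟩ := tail_le hG K A hA0 M hM
  set L' : ℕ := B₁ ! * B₂ ! with hL'
  have hL'0 : 0 < L' := Nat.mul_pos (Nat.factorial_pos _) (Nat.factorial_pos _)
  refine ⟨B₁ ! + (B₃ + 2) * L', fun f T hd h hT => ?_⟩
  have hmemT : ∀ (x : K) (k : ℕ), 0 < Function.minimalPeriod (fg f 0) ((fg f 0)^[k] x) →
      x ∈ T := by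
    intro x k hk
    exact hT x (pre_of_it k (pre_of_periodic hk Function.iterate_minimalPeriod))
  refine ⟨fun x hx q hq hqn => ?_, fun r => ?_⟩
  · have hn0 : 0 < Function.minimalPeriod (fg f 0) x :=
      Function.minimalPeriod_pos_iff_mem_periodicPts.2 hx
    have hxT : x ∈ T := hmemT x 0 hn0
    have hdv : q ∣ B₁ ! := by
      refine dvd_fac fun p j hp hj hpj => ?_
      have hp2 : p ≠ 2 := by
        rintro rfl
        have h1 : 2 ∣ q := (dvd_pow_self 2 hj.ne').trans hpj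
        rw [Nat.odd_iff] at hq
        omega
      exact hB₁ _ T h x _ hxT hn0 rfl p j hp hp2 (hpj.trans hqn)
    exact (Nat.le_of_dvd (Nat.factorial_pos _) hdv).trans (Nat.le_add_right _ _)
  · set L : ℕ := 2 ^ r * L' with hL
    have hL0 : 0 < L := Nat.mul_pos (pow_pos (by norm_num) _) hL'0
    have hpow : ((f.natDegree ^ ((B₃ + 1) * L + L) : ℕ) : ℕ∞) ≤
        ((f.natDegree ^ ((B₁ ! + (B₃ + 2) * L') * 2 ^ r) : ℕ) : ℕ∞) := by
      refine Nat.cast_le.2 ?_
      have e : (B₃ + 1) * L + L = (B₃ + 2) * L' * 2 ^ r := by rw [hL]; ring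
      rw [e]
      exact Nat.pow_le_pow_right (by omega) (Nat.mul_le_mul_right _ (Nat.le_add_left _ _))
    refine le_trans ?_ hpow
    refine few_points (c := 0) hd rfl L ((B₃ + 1) * L) hL0 _ ?_
    rintro x ⟨k, n, hn, hn0, hk, hr⟩
    have hxT : x ∈ T := hmemT x k (by rw [hn]; exact hn0)
    have hkT : (fg f 0)^[k] x ∈ T := h.it hxT k
    have hdv : n ∣ L := by
      rw [Nat.dvd_iff_prime_pow_dvd_dvd]
      intro p j hp hpj
      by_cases hp2 : p = 2
      · subst hp2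
        rcases hr with hr | hr
        · have hjr : j ≤ r := by
            by_contra hcon
            exact hr ((Nat.pow_dvd_pow 2 (by omega)).trans hpj)
          exact (Nat.pow_dvd_pow 2 hjr).trans (Dvd.intro _ rfl)
        · have h1 := hB₂ hr _ T h ((fg f 0)^[k] x) n hkT hn0 hn j hpj
          have h2 : 2 ^ j ∣ B₂ ! := Nat.dvd_factorial (pow_pos (by norm_num) _) h1
          exact h2.trans ((Dvd.intro_left _ rfl).trans (Dvd.intro_left _ rfl))
      · have h1 := hB₁ _ T h ((fg f 0)^[k] x) n hkT hn0 hn p j hp hp2 hpj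
        have h2 : p ^ j ∣ B₁ ! := Nat.dvd_factorial (pow_pos hp.pos _) h1
        exact h2.trans ((Dvd.intro _ rfl).trans (Dvd.intro_left _ rfl))
    rcases hk with rfl | hk
    · refine ⟨0, by rw [hn]; exact hn0, by rw [hn]; exact hdv, fun t ht => ?_⟩
      exfalso
      apply ht
      refine per_it (Function.minimalPeriod_pos_iff_mem_periodicPts.1 ?_) t
      have : Function.minimalPeriod (fg f 0) x = n := hn
      rw [this]; exact hn0
    · refine ⟨k, by rw [hn]; exact hn0, by rw [hn]; exact hdv, fun t ht _ hper => ?_⟩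
      rw [hn] at hper
      calc t + 1 ≤ (B₃ + 1) * n := hB₃ _ T h x n t hxT hk hper ht
        _ ≤ (B₃ + 1) * L := Nat.mul_le_mul_left _ (Nat.le_of_dvd hL0 hdv)

end Pool.Agent.PDQ
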