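import Pool.Agent.PDQ.Gp
import Pool.Agent.PDP.TwoPow

set_option autoImplicit false

/-!
# PDQ: prime powers dividing the length of a cycle
-/

open Polynomial Height Height.AdmissibleAbsValues NumberField IsDedekindDomain
open scoped WithZero

noncomputable section

namespace Pool.Agent.PDQ

open Pool.Agent.PDP (wb wb2 Sg Sq gcd_mul_aux four)

/-- points of a cycle with different indices are different -/
lemma cyc_ne {K : Type} {f : K → K} {x : K} {i j : ℕ}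
    (hi : i < Function.minimalPeriod f x) (hj : j < Function.minimalPeriod f x)
    (hij : i ≠ j) : f^[i] x ≠ f^[j] x := by
  intro h
  exact hij (Function.iterate_injOn_Iio_minimalPeriod (Set.mem_Iio.2 hi) (Set.mem_Iio.2 hj) h)

/-- differences of points of a cycle with equal greatest common divisors -/
lemma cyc_power {K : Type} [Field K] [NumberField K] {A : Finset K} {M : ℕ} {f : K → K}
    {T : Set K} (h : Sys A M f T) {x : K} {n : ℕ} (hxT : x ∈ T) (hn : 0 < n)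
    (hx : Function.minimalPeriod f x = n) {i j i' j' : ℕ} (hi : i < n) (hj : j < n)
    (hi' : i' < n) (hj' : j' < n) (hij : i ≠ j) (hij' : i' ≠ j')
    (hgcd : Nat.gcd (Int.natAbs ((i : ℤ) - j)) n = Nat.gcd (Int.natAbs ((i' : ℤ) - j')) n) :
    ∃ a ∈ A, ∃ z : K, z ≠ 0 ∧ f^[i] x - f^[j] x = a * z ^ M * (f^[i'] x - f^[j'] x) := by
  have hfix : f^[n] x = x := by
    rw [← hx]
    exact Function.iterate_minimalPeriod
  refine h.pow _ (h.it hxT i) _ (h.it hxT j) _ (h.it hxT i') _ (h.it hxT j')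
    (cyc_ne (by omega) (by omega) hij) (cyc_ne (by omega) (by omega) hij') fun v hv => ?_
  rw [gp_cyc hv hn hfix, gp_cyc hv hn hfix, hgcd]

/-- odd prime powers dividing the length of a cycle are bounded -/
theorem odd_pow (hG : HMW.T_KGU) (K : Type) [Field K] [NumberField K] (A : Finset K)
    (hA0 : ∀ a ∈ A, a ≠ 0) (M : ℕ) (hM : 5 ≤ M) : ∃ B : ℕ, ∀ (f : K → K) (T : Set K),
    Sys A M f T → ∀ (x : K) (n : ℕ), x ∈ T → 0 < n →
    Function.minimalPeriod f x = n → ∀ l k : ℕ, l.Prime → l ≠ 2 → l ^ k ∣ n →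
    l ^ k ≤ B := by
  classical
  obtain ⟨B, hB⟩ := wb hG K A hA0 M hM
  refine ⟨3 * B + 1, fun f T h x n hxT hn hx l k hl hl2 hdvd => ?_⟩
  rcases Nat.eq_zero_or_pos k with rfl | hk
  · rw [pow_zero]; omega
  obtain ⟨k, rfl⟩ : ∃ j, k = j + 1 := ⟨k - 1, by omega⟩
  obtain ⟨m, hm⟩ := hdvd
  have hm0 : 0 < m := by
    rcases Nat.eq_zero_or_pos m with h0 | h0
    · rw [h0, mul_zero] at hm; omega
    · exact h0
  have hlodd : l % 2 = 1 := by
    rcases hl.eq_two_or_odd with h1 | h1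
    · exact absurd h1 hl2
    · exact h1
  obtain ⟨s, hs⟩ : ∃ s, l = 2 * s + 1 := ⟨l / 2, by omega⟩
  have hs1 : 1 ≤ s := by
    have := hl.two_le
    omega
  have hcop : ∀ i j : ℕ, i % l ≠ j % l →
      Nat.gcd (Int.natAbs ((i : ℤ) - j)) (l ^ (k + 1)) = 1 := by
    intro i j hij
    refine Nat.Coprime.pow_right _ (Nat.Coprime.symm ((Nat.Prime.coprime_iff_not_dvd hl).2 ?_))
    intro hdv
    apply hij
    have h1 : (l : ℤ) ∣ (i : ℤ) - j := Int.natCast_dvd.2 hdv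
    have h2 : (j : ℤ) ≡ i [ZMOD l] := Int.modEq_iff_dvd.2 h1
    exact (Int.natCast_modEq_iff.1 h2).symm
  set u : ℕ → K := fun i => f^[i * m] x with hu
  have hlt : ∀ i, i < l ^ (k + 1) → i * m < n := by
    intro i hi
    rw [hm]
    exact Nat.mul_lt_mul_of_pos_right hi hm0
  have hne : ∀ i j, i < l ^ (k + 1) → j < l ^ (k + 1) → i ≠ j → u i ≠ u j := by
    intro i j hi hj hij
    refine cyc_ne (by rw [hx]; exact hlt i hi) (by rw [hx]; exact hlt j hj) ?_
    intro he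
    exact hij (Nat.eq_of_mul_eq_mul_right hm0 he)
  have hpow : ∀ i j i' j', i < l ^ (k + 1) → j < l ^ (k + 1) → i' < l ^ (k + 1) →
      j' < l ^ (k + 1) → i % l ≠ j % l → i' % l ≠ j' % l → ∃ a ∈ A, ∃ z : K, z ≠ 0 ∧
      u i - u j = a * z ^ M * (u i' - u j') := by
    intro i j i' j' hi hj hi' hj' hij hij'
    have e1 : i ≠ j := fun he => hij (by rw [he])
    have e2 : i' ≠ j' := fun he => hij' (by rw [he])
    refine cyc_power h hxT hn hx (hlt i hi) (hlt j hj) (hlt i' hi') (hlt j' hj')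
      (fun he => e1 (Nat.eq_of_mul_eq_mul_right hm0 he))
      (fun he => e2 (Nat.eq_of_mul_eq_mul_right hm0 he)) ?_
    rw [hm, gcd_mul_aux (hcop i j hij), gcd_mul_aux (hcop i' j' hij')]
  -- the two sets
  have hidx : ∀ a b, a < l ^ k → b < l → l * a + b < l ^ (k + 1) := by
    intro a b ha hb
    calc l * a + b < l * a + l := by omega
      _ = l * (a + 1) := by ring
      _ ≤ l * l ^ k := Nat.mul_le_mul_left _ ha
      _ = l ^ (k + 1) := by rw [pow_succ]; ring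
  have hmod : ∀ a b, b < l → (l * a + b) % l = b := by
    intro a b hb
    rw [Nat.mul_add_mod, Nat.mod_eq_of_lt hb]
  have hpos : 0 < l ^ (k + 1) := pow_pos hl.pos _
  have hcard : ∀ I : Finset ℕ, (∀ b ∈ I, 1 ≤ b ∧ b < l) →
      ((Finset.range (l ^ k) ×ˢ I).image fun p => u 0 - u (l * p.1 + p.2)).card =
        l ^ k * I.card := by
    intro I hI
    rw [Finset.card_image_of_injOn, Finset.card_product, Finset.card_range]
    rintro ⟨a, b⟩ hab ⟨a', b'⟩ hab' he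
    rw [Finset.mem_coe, Finset.mem_product, Finset.mem_range] at hab hab'
    dsimp only at hab hab' he
    have hb := (hI b hab.2).2
    have hb' := (hI b' hab'.2).2
    have e1 : l * a + b = l * a' + b' := by
      by_contra hcon
      exact hne _ _ (hidx a b hab.1 hb) (hidx a' b' hab'.1 hb') hcon (sub_right_injective he)
    have e2 : (l * a + b) % l = (l * a' + b') % l := by rw [e1]
    rw [hmod a b hb, hmod a' b' hb'] at e2
    have e3 : l * a = l * a' := by omega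
    rw [Nat.eq_of_mul_eq_mul_left hl.pos e3, e2]
  have hzero : ∀ I : Finset ℕ, (∀ b ∈ I, 1 ≤ b ∧ b < l) →
      ∀ p ∈ (Finset.range (l ^ k) ×ˢ I).image fun p => u 0 - u (l * p.1 + p.2), p ≠ 0 := by
    intro I hI p hp
    obtain ⟨⟨a, b⟩, hab, rfl⟩ := Finset.mem_image.1 hp
    rw [Finset.mem_product, Finset.mem_range] at hab
    dsimp only at hab ⊢
    refine sub_ne_zero.2 (hne 0 _ hpos (hidx a b hab.1 (hI b hab.2).2) ?_)
    have := (hI b hab.2).1
    omega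
  have hI1 : ∀ b ∈ Finset.Icc 1 s, 1 ≤ b ∧ b < l := by
    intro b hb
    rw [Finset.mem_Icc] at hb
    omega
  have hI2 : ∀ b ∈ Finset.Icc (s + 1) (2 * s), 1 ≤ b ∧ b < l := by
    intro b hb
    rw [Finset.mem_Icc] at hb
    omega
  have hfin := hB ((Finset.range (l ^ k) ×ˢ Finset.Icc 1 s).image fun p =>
      u 0 - u (l * p.1 + p.2)) ((Finset.range (l ^ k) ×ˢ Finset.Icc (s + 1) (2 * s)).image
      fun p => u 0 - u (l * p.1 + p.2)) (hzero _ hI1) (hzero _ hI2) (by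
    intro p hp q hq
    obtain ⟨⟨a, b⟩, hab, rfl⟩ := Finset.mem_image.1 hp
    obtain ⟨⟨a', b'⟩, hab', rfl⟩ := Finset.mem_image.1 hq
    rw [Finset.mem_product, Finset.mem_range] at hab hab'
    dsimp only at hab hab' ⊢
    have hb := hI1 b hab.2
    have hb' := hI2 b' hab'.2
    have hbb : b ≠ b' := by
      have h1 := Finset.mem_Icc.1 hab.2
      have h2 := Finset.mem_Icc.1 hab'.2
      omega
    have i1 := hidx a b hab.1 hb.2
    have i2 := hidx a' b' hab'.1 hb'.2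
    have m1 := hmod a b hb.2
    have m2 := hmod a' b' hb'.2
    have hne2 : u 0 - u (l * a' + b') ≠ 0 := sub_ne_zero.2 (hne 0 _ hpos i2 (by omega))
    refine ⟨?_, ?_⟩
    · obtain ⟨α, hα, z, -, he⟩ := hpow 0 (l * a + b) 0 (l * a' + b') hpos i1 hpos i2
        (by rw [Nat.zero_mod, m1]; omega) (by rw [Nat.zero_mod, m2]; omega)
      exact ⟨α, hα, z, by rw [he, mul_div_cancel_right₀ _ hne2]⟩
    · obtain ⟨α, hα, z, -, he⟩ := hpow (l * a + b) (l * a' + b') 0 (l * a' + b') i1 i2 hpos i2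
        (by rw [m1, m2]; exact hbb) (by rw [Nat.zero_mod, m2]; omega)
      refine ⟨α, hα, z, ?_⟩
      rw [eq_comm, ← mul_div_cancel_right₀ (α * z ^ M) hne2, ← he]
      field_simp
      ring)
  rw [hcard _ hI1, hcard _ hI2, Nat.card_Icc, Nat.card_Icc] at hfin
  have h1 : l ^ k * s ≤ B := by
    rcases hfin with h1 | h1
    · simpa using h1
    · have e : 2 * s + 1 - (s + 1) = s := by omega
      rwa [e] at h1
  calc l ^ (k + 1) = l ^ k * l := pow_succ _ _
    _ ≤ l ^ k * (3 * s) := Nat.mul_le_mul_left _ (by omega)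
    _ = 3 * (l ^ k * s) := by ring
    _ ≤ 3 * B + 1 := by omega

/-- powers of two dividing the length of a cycle are bounded if `M` is even -/
theorem two_pow (hG : HMW.T_KGU) (K : Type) [Field K] [NumberField K] (A : Finset K)
    (hA0 : ∀ a ∈ A, a ≠ 0) (M : ℕ) (hM : 5 ≤ M) (hM2 : 2 ∣ M) :
    ∃ B : ℕ, ∀ (f : K → K) (T : Set K), Sys A M f T → ∀ (x : K) (n : ℕ), x ∈ T → 0 < n →
    Function.minimalPeriod f x = n → ∀ k : ℕ, 2 ^ k ∣ n → 2 ^ k ≤ B := by
  classical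
  set A' : Finset K := ((A ×ˢ A).image fun p => p.1 * p.2) ∪ ((A ×ˢ A).image fun p => p.1 / p.2)
    with hA'
  have hA'0 : ∀ a ∈ A', a ≠ 0 := by
    intro a ha
    rw [hA', Finset.mem_union, Finset.mem_image, Finset.mem_image] at ha
    rcases ha with ⟨p, hp, rfl⟩ | ⟨p, hp, rfl⟩
    · rw [Finset.mem_product] at hp
      exact mul_ne_zero (hA0 _ hp.1) (hA0 _ hp.2)
    · rw [Finset.mem_product] at hp
      exact div_ne_zero (hA0 _ hp.1) (hA0 _ hp.2)
  obtain ⟨B, hB⟩ := wb2 hG K A' hA'0 M hM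
  refine ⟨4 * B + 4, fun f T h x n hxT hn hx k hdvd => ?_⟩
  rcases lt_or_ge k 2 with hk | hk
  · have : 2 ^ k ≤ 2 ^ 1 := Nat.pow_le_pow_right (by norm_num) (by omega)
    omega
  obtain ⟨k, rfl⟩ : ∃ j, k = j + 2 := ⟨k - 2, by omega⟩
  obtain ⟨m, hm⟩ := hdvd
  have hm0 : 0 < m := by
    rcases Nat.eq_zero_or_pos m with h0 | h0
    · rw [h0, mul_zero] at hm; omega
    · exact h0
  have h4 : 2 ^ (k + 2) = 4 * 2 ^ k := by rw [pow_add]; ring
  set u : ℕ → K := fun i => f^[i * m] x with hu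
  have hlt : ∀ i, i < 2 ^ (k + 2) → i * m < n := by
    intro i hi
    rw [hm]
    exact Nat.mul_lt_mul_of_pos_right hi hm0
  have hne : ∀ i j, i < 2 ^ (k + 2) → j < 2 ^ (k + 2) → i ≠ j → u i ≠ u j := by
    intro i j hi hj hij
    refine cyc_ne (by rw [hx]; exact hlt i hi) (by rw [hx]; exact hlt j hj) ?_
    intro he
    exact hij (Nat.eq_of_mul_eq_mul_right hm0 he)
  have hodd : ∀ i j : ℕ, i % 2 ≠ j % 2 →
      Nat.gcd (Int.natAbs ((i : ℤ) - j)) (2 ^ (k + 2)) = 1 := by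
    intro i j hij
    refine Nat.Coprime.pow_right _ (Nat.Coprime.symm
      ((Nat.Prime.coprime_iff_not_dvd Nat.prime_two).2 ?_))
    intro hdv
    omega
  have hev : ∀ i j : ℕ, i % 2 = j % 2 → i % 4 ≠ j % 4 →
      Nat.gcd (Int.natAbs ((i : ℤ) - j)) (2 ^ (k + 2)) = 2 := by
    intro i j hij hij4
    obtain ⟨t, ht⟩ : ∃ t, Int.natAbs ((i : ℤ) - j) = 2 * t := ⟨Int.natAbs ((i : ℤ) - j) / 2, by
      omega⟩
    have ht2 : t % 2 = 1 := by omega
    rw [ht, show 2 ^ (k + 2) = 2 * 2 ^ (k + 1) by rw [pow_succ 2 (k + 1)]; ring,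
      Nat.gcd_mul_left]
    have : Nat.gcd t (2 ^ (k + 1)) = 1 := by
      refine Nat.Coprime.pow_right _ (Nat.Coprime.symm
        ((Nat.Prime.coprime_iff_not_dvd Nat.prime_two).2 ?_))
      intro hdv
      omega
    rw [this]
  have hpow : ∀ r i j i' j' : ℕ, i < 2 ^ (k + 2) → j < 2 ^ (k + 2) → i' < 2 ^ (k + 2) →
      j' < 2 ^ (k + 2) → i ≠ j → i' ≠ j' →
      Nat.gcd (Int.natAbs ((i : ℤ) - j)) (2 ^ (k + 2)) = r →
      Nat.gcd (Int.natAbs ((i' : ℤ) - j')) (2 ^ (k + 2)) = r → ∃ a ∈ A, ∃ z : K, z ≠ 0 ∧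
      u i - u j = a * z ^ M * (u i' - u j') := by
    intro r i j i' j' hi hj hi' hj' e1 e2 hr hr'
    refine cyc_power h hxT hn hx (hlt i hi) (hlt j hj) (hlt i' hi') (hlt j' hj')
      (fun he => e1 (Nat.eq_of_mul_eq_mul_right hm0 he))
      (fun he => e2 (Nat.eq_of_mul_eq_mul_right hm0 he)) ?_
    rw [hm, gcd_mul_aux hr, gcd_mul_aux hr']
  have hb0 : 0 < 2 ^ (k + 2) := pow_pos (by norm_num) _
  have hb2 : 2 < 2 ^ (k + 2) := by
    have : 1 ≤ 2 ^ k := Nat.one_le_pow _ _ (by norm_num)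
    omega
  have hidx : ∀ a r, a < 2 ^ k → r < 4 → 4 * a + r < 2 ^ (k + 2) := by
    intro a r ha hr
    omega
  have hab : u 0 - u 2 ≠ 0 := sub_ne_zero.2 (hne 0 2 hb0 hb2 (by norm_num))
  -- injectivity of the Moebius map
  have hmob : ∀ r, r = 1 ∨ r = 3 → ((Finset.range (2 ^ k)).image fun a =>
      (u 0 - u (4 * a + r)) / (u 2 - u (4 * a + r))).card = 2 ^ k := by
    intro r hr
    rw [Finset.card_image_of_injOn, Finset.card_range]
    intro a ha a' ha' he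
    rw [Finset.mem_coe, Finset.mem_range] at ha ha'
    have i1 := hidx a r ha (by omega)
    have i2 := hidx a' r ha' (by omega)
    have n1 : u 2 - u (4 * a + r) ≠ 0 := sub_ne_zero.2 (hne 2 _ hb2 i1 (by omega))
    have n2 : u 2 - u (4 * a' + r) ≠ 0 := sub_ne_zero.2 (hne 2 _ hb2 i2 (by omega))
    have he' : (u 0 - u (4 * a + r)) / (u 2 - u (4 * a + r)) =
      (u 0 - u (4 * a' + r)) / (u 2 - u (4 * a' + r)) := he
    rw [div_eq_div_iff n1 n2] at he'
    have h5 : (u 0 - u 2) * (u (4 * a + r) - u (4 * a' + r)) = 0 := by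
      linear_combination he'
    rcases mul_eq_zero.1 h5 with h6 | h6
    · exact absurd h6 hab
    · by_contra hcon
      exact hne _ _ i1 i2 (by omega) (sub_eq_zero.1 h6)
  have hnz : ∀ r, r = 1 ∨ r = 3 → ∀ p ∈ (Finset.range (2 ^ k)).image fun a =>
      (u 0 - u (4 * a + r)) / (u 2 - u (4 * a + r)), p ≠ 0 := by
    intro r hr p hp
    obtain ⟨a, ha, rfl⟩ := Finset.mem_image.1 hp
    rw [Finset.mem_range] at ha
    have i1 := hidx a r ha (by omega)
    exact div_ne_zero (sub_ne_zero.2 (hne 0 _ hb0 i1 (by omega)))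
      (sub_ne_zero.2 (hne 2 _ hb2 i1 (by omega)))
  have hfin := hB ((Finset.range (2 ^ k)).image fun a =>
      (u 0 - u (4 * a + 1)) / (u 2 - u (4 * a + 1))) ((Finset.range (2 ^ k)).image fun a =>
      (u 0 - u (4 * a + 3)) / (u 2 - u (4 * a + 3))) (hnz 1 (Or.inl rfl)) (hnz 3 (Or.inr rfl)) (by
    intro p hp q hq
    obtain ⟨a, ha, rfl⟩ := Finset.mem_image.1 hp
    obtain ⟨a', ha', rfl⟩ := Finset.mem_image.1 hq
    rw [Finset.mem_range] at ha ha'
    have i1 := hidx a 1 ha (by norm_num)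
    have i2 := hidx a' 3 ha' (by norm_num)
    obtain ⟨α₁, m₁, z₁, -, e₁⟩ := hpow 1 0 (4 * a + 1) 0 (4 * a' + 3) hb0 i1 hb0 i2 (by omega)
      (by omega) (hodd _ _ (by omega)) (hodd _ _ (by omega))
    obtain ⟨α₂, m₂, z₂, -, e₂⟩ := hpow 1 2 (4 * a' + 3) 2 (4 * a + 1) hb2 i2 hb2 i1 (by omega)
      (by omega) (hodd _ _ (by omega)) (hodd _ _ (by omega))
    obtain ⟨α₃, m₃, z₃, -, e₃⟩ := hpow 2 (4 * a + 1) (4 * a' + 3) 0 2 i1 i2 hb0 hb2 (by omega)
      (by omega) (hev _ _ (by omega) (by omega)) (hev _ _ (by omega) (by omega))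
    obtain ⟨α₄, m₄, z₄, hz₄, e₄⟩ := hpow 1 2 (4 * a + 1) 0 (4 * a' + 3) hb2 i1 hb0 i2 (by omega)
      (by omega) (hodd _ _ (by omega)) (hodd _ _ (by omega))
    obtain ⟨r1, y, r2⟩ := four M hM2 (sub_ne_zero.2 (hne 0 _ hb0 i2 (by omega)))
      (sub_ne_zero.2 (hne 2 _ hb2 i1 (by omega))) (hA0 _ m₄) hz₄ e₁ e₂ e₃ e₄
    refine ⟨⟨α₁ * α₂, ?_, z₁ * z₂, r1⟩, α₃ / α₄, ?_, y, r2⟩
    · rw [hA', Finset.mem_union]
      exact Or.inl (Finset.mem_image.2 ⟨(α₁, α₂), Finset.mem_product.2 ⟨m₁, m₂⟩, rfl⟩)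
    · rw [hA', Finset.mem_union]
      exact Or.inr (Finset.mem_image.2 ⟨(α₃, α₄), Finset.mem_product.2 ⟨m₃, m₄⟩, rfl⟩))
  rw [hmob 1 (Or.inl rfl), hmob 3 (Or.inr rfl)] at hfin
  omega

end Pool.Agent.PDQ
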