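import Mathlib

set_option autoImplicit false

/-!
# PDQ: the definition of tame places
-/

open Polynomial
open scoped WithZero

noncomputable section

namespace Pool.Agent.PDQ

open WithZero

/-- `f` is tame with exponent `M` at the valuation `w` of `K`: over an extension field `L` with a
valuation `u` whose restriction to `K` is `w ^ ε`, there is a coordinate `X = t x + b` in which
`f` is `F(X) / e`, where `F` is integral at `u` with unit leading coefficient and `e` is integral.
If `e` is a unit (`f` has potentially good reduction) nothing else is required. If `e` is not a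
unit, then `M` is one less than the degree of `f` and divides the order of the leading coefficient
of `f`, or `M ε` divides the order of `e`; and the reduction of `F` has no multiple zero at the
reduction of the coordinate of a point of `K`. -/
def Tame {K : Type} [Field K] (M : ℕ) (w : Valuation K ℤᵐ⁰) (f : K[X]) : Prop :=
  ∃ (L : Type) (_ : Field L) (u : Valuation L ℤᵐ⁰) (φ : K →+* L) (ε : ℕ) (t b e : L) (F : L[X]),
    ε ≠ 0 ∧ (∀ x, u (φ x) = w x ^ ε) ∧ t ≠ 0 ∧ e ≠ 0 ∧
    F.comp (C t * X + C b) = C e * (C t * f.map φ + C b) ∧
    (∀ i, u (F.coeff i) ≤ 1) ∧ u F.leadingCoeff = 1 ∧ u e ≤ 1 ∧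
    (u e < 1 →
      (M + 1 = f.natDegree ∧ (M : ℤ) ∣ log (w f.leadingCoeff) ∨ (M : ℤ) * ε ∣ log (u e)) ∧
      ∀ x : K, u (t * φ x + b) ≤ 1 → u (F.eval (t * φ x + b)) < 1 →
        u (F.derivative.eval (t * φ x + b)) = 1)

end Pool.Agent.PDQ
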