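import Pool.Agent.PDP.Tail

set_option autoImplicit false

/-!
# PDQ: places of potentially good reduction
-/

open Polynomial NumberField IsDedekindDomain
open scoped WithZero

noncomputable section

namespace Pool.Agent.PDQ

open Pool.Agent.PDP

/-- over an extension field, in a coordinate `t x + b`, the map `f` is a polynomial with good
reduction -/
def GP {K Γ : Type} [Field K] [LinearOrderedCommGroupWithZero Γ] (w : Valuation K Γ)
    (f : K → K) : Prop :=
  ∃ (L : Type) (_ : Field L) (Δ : Type) (_ : LinearOrderedCommGroupWithZero Δ)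
    (u : Valuation L Δ) (φ : K →+* L) (t b c : L) (g : L[X]),
    (∀ x y, u (φ x) = u (φ y) → w x = w y) ∧ t ≠ 0 ∧ IG u g ∧ u c ≤ 1 ∧ 2 ≤ g.natDegree ∧
    ∀ x, fg g c (t * φ x + b) = t * φ (f x) + b

section Conj

variable {K L : Type} [Field K] [Field L] {φ : K →+* L} {F : L → L} {f : K → K} {t b : L}

lemma cj_it (h : ∀ x, F (t * φ x + b) = t * φ (f x) + b) (k : ℕ) (x : K) :
    F^[k] (t * φ x + b) = t * φ (f^[k] x) + b := by
  induction k with
  | zero => rfl
  | succ k ih => rw [Function.iterate_succ_apply', Function.iterate_succ_apply', ih, h]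

lemma cj_per (ht : t ≠ 0) (h : ∀ x, F (t * φ x + b) = t * φ (f x) + b) (k : ℕ) (x : K) :
    Function.IsPeriodicPt F k (t * φ x + b) ↔ Function.IsPeriodicPt f k x := by
  unfold Function.IsPeriodicPt Function.IsFixedPt
  rw [cj_it h]
  constructor
  · intro e
    exact φ.injective (mul_left_cancel₀ ht (add_right_cancel e))
  · intro e
    rw [e]

lemma cj_min (ht : t ≠ 0) (h : ∀ x, F (t * φ x + b) = t * φ (f x) + b) (x : K) :
    Function.minimalPeriod F (t * φ x + b) = Function.minimalPeriod f x := by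
  rw [Function.minimalPeriod_eq_minimalPeriod_iff]
  intro n
  exact cj_per ht h n x

lemma cj_mem (ht : t ≠ 0) (h : ∀ x, F (t * φ x + b) = t * φ (f x) + b) (x : K) :
    t * φ x + b ∈ Function.periodicPts F ↔ x ∈ Function.periodicPts f := by
  constructor
  · rintro ⟨n, hn, hx⟩
    exact ⟨n, hn, (cj_per ht h n x).1 hx⟩
  · rintro ⟨n, hn, hx⟩
    exact ⟨n, hn, (cj_per ht h n x).2 hx⟩

end Conj

/-- a quantity which takes the same value at all admissible arguments -/
lemma const_of {α Γ : Type*} [Nonempty Γ] (P : α → Prop) (val : α → Γ)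
    (h : ∀ a b, P a → P b → val a = val b) : ∃ C, ∀ a, P a → val a = C := by
  by_cases hex : ∃ a, P a
  · obtain ⟨a, ha⟩ := hex
    exact ⟨val a, fun b hb => h b a hb ha⟩
  · exact ⟨Classical.arbitrary Γ, fun a ha => absurd ⟨a, ha⟩ hex⟩

section Gp

variable {K Γ : Type} [Field K] [LinearOrderedCommGroupWithZero Γ] {w : Valuation K Γ} {f : K → K}

/-- distances in a cycle -/
lemma gp_cyc (h : GP w f) {x : K} {n : ℕ} (hn : 0 < n) (hx : f^[n] x = x) (i j : ℕ) :
    w (f^[i] x - f^[j] x) = w (f^[Nat.gcd (Int.natAbs ((i : ℤ) - j)) n] x - x) := by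
  obtain ⟨L, iL, Δ, iΔ, u, φ, t, b, c, g, hu, ht, hg, hc, hd, hf⟩ := h
  have h1 : (fg g c)^[n] (t * φ x + b) = t * φ x + b := by rw [cj_it hf, hx]
  have h2 := cyc_dist hg hd hc hn h1 i j
  rw [cj_it hf, cj_it hf, cj_it hf] at h2
  have e : ∀ y z : K, t * φ y + b - (t * φ z + b) = t * φ (y - z) := fun y z => by
    rw [map_sub]; ring
  rw [e, e, map_mul, map_mul] at h2
  exact hu _ _ (mul_left_cancel₀ ((Valuation.ne_zero_iff u).2 ht) h2)

/-- distances in a tail -/
lemma gp_tail (h : GP w f) : ∃ C : Γ, ∀ (x : K) (s n δ : ℕ), 0 < n →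
    Function.minimalPeriod f (f^[s] x) = n → x ∉ Function.periodicPts f → ¬ n ∣ δ →
    w (x - f^[δ] x) = C := by
  obtain ⟨L, iL, Δ, iΔ, u, φ, t, b, c, g, hu, ht, hg, hc, hd, hf⟩ := h
  obtain ⟨C, hC⟩ := const_of (α := K × ℕ) (fun p => ∃ s n : ℕ, 0 < n ∧
    Function.minimalPeriod f (f^[s] p.1) = n ∧ p.1 ∉ Function.periodicPts f ∧ ¬ n ∣ p.2)
    (fun p => w (p.1 - f^[p.2] p.1)) (by
      have key : ∀ p : K × ℕ, (∃ s n : ℕ, 0 < n ∧ Function.minimalPeriod f (f^[s] p.1) = n ∧
          p.1 ∉ Function.periodicPts f ∧ ¬ n ∣ p.2) → u (φ (p.1 - f^[p.2] p.1)) = (u t)⁻¹ := by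
        rintro ⟨x, δ⟩ ⟨s, n, hn, hper, hx, hδ⟩
        have h1 := tail_one (u := t * φ x + b) (t := s) (n := n) (δ := δ) hg hd hc hn
          (by rw [cj_it hf, cj_min ht hf, hper]) (by rw [cj_mem ht hf]; exact hx) hδ
        rw [cj_it hf] at h1
        have e : t * φ x + b - (t * φ (f^[δ] x) + b) = t * φ (x - f^[δ] x) := by
          rw [map_sub]; ring
        rw [e, map_mul] at h1
        exact eq_inv_of_mul_eq_one_right h1
      intro p q hp hq
      exact hu _ _ ((key p hp).trans (key q hq).symm))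
  exact ⟨C, fun x s n δ h1 h2 h3 h4 => hC (x, δ) ⟨s, n, h1, h2, h3, h4⟩⟩

end Gp

/-- the abstract setting: `f` acts on the set `T` of points with finite orbits, and differences
of points of `T` which agree at the places of potentially good reduction agree up to `M`-th
powers and factors from `A` -/
structure Sys {K : Type} [Field K] [NumberField K] (A : Finset K) (M : ℕ) (f : K → K)
    (T : Set K) : Prop where
  map : ∀ x ∈ T, f x ∈ T
  pow : ∀ p ∈ T, ∀ q ∈ T, ∀ p' ∈ T, ∀ q' ∈ T, p ≠ q → p' ≠ q' →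
    (∀ v : HeightOneSpectrum (𝓞 K), GP (v.valuation K) f →
      v.valuation K (p - q) = v.valuation K (p' - q')) →
    ∃ a ∈ A, ∃ z : K, z ≠ 0 ∧ p - q = a * z ^ M * (p' - q')

lemma Sys.it {K : Type} [Field K] [NumberField K] {A : Finset K} {M : ℕ} {f : K → K}
    {T : Set K} (h : Sys A M f T) {x : K} (hx : x ∈ T) (k : ℕ) : f^[k] x ∈ T := by
  induction k with
  | zero => exact hx
  | succ k ih =>
    rw [Function.iterate_succ_apply']
    exact h.map _ ih

end Pool.Agent.PDQ
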