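import Pool.Agent.PDQ.Main

set_option autoImplicit false

/-!
# PDQ: examples of tame places
-/

open Polynomial NumberField IsDedekindDomain
open scoped WithZero

noncomputable section

namespace Pool.Agent.PDQ

open Pool.Agent.PDP WithZero

/-- good reduction is tame -/
lemma tame_good {K : Type} [Field K] {w : Valuation K ℤᵐ⁰} {f : K[X]} (M : ℕ)
    (h1 : ∀ i, w (f.coeff i) ≤ 1) (h2 : w f.leadingCoeff = 1) : Tame M w f := by
  refine ⟨K, inferInstance, w, RingHom.id K, 1, 1, 0, 1, f, one_ne_zero, fun x => ?_,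
    one_ne_zero, one_ne_zero, ?_, h1, h2, ?_, fun h => ?_⟩
  · rw [RingHom.id_apply, pow_one]
  · rw [C_1, C_0, one_mul, add_zero, comp_X, map_id, one_mul, one_mul, add_zero]
  · rw [map_one]
  · rw [map_one] at h
    exact absurd h (lt_irrefl _)

/-- `F / D ^ M` is tame if all zeros of the reduction of `F` are simple at the places dividing
`D` -/
lemma tame_frac {K : Type} [Field K] {w : Valuation K ℤᵐ⁰} {F : K[X]} {D : K} (M : ℕ)
    (h1 : ∀ i, w (F.coeff i) ≤ 1) (h2 : w F.leadingCoeff = 1) (hD : D ≠ 0) (hD1 : w D ≤ 1)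
    (h3 : w D < 1 → ∀ x, w x ≤ 1 → w (F.eval x) < 1 → w (F.derivative.eval x) = 1) :
    Tame M w (C (D ^ M)⁻¹ * F) := by
  have hDM : D ^ M ≠ 0 := pow_ne_zero _ hD
  refine ⟨K, inferInstance, w, RingHom.id K, 1, 1, 0, D ^ M, F, one_ne_zero, fun x => ?_,
    one_ne_zero, hDM, ?_, h1, h2, ?_, fun h => ⟨Or.inr ?_, fun x => ?_⟩⟩
  · rw [RingHom.id_apply, pow_one]
  · rw [C_1, C_0, one_mul, add_zero, comp_X, map_id, one_mul, add_zero, ← mul_assoc, ← C_mul,
      mul_inv_cancel₀ hDM, C_1, one_mul]
  · rw [map_pow]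
    exact pow_le_one' hD1 _
  · rw [map_pow, log_pow, nsmul_eq_mul, Nat.cast_one, mul_one]
    exact dvd_mul_right _ _
  · rw [RingHom.id_apply, one_mul, add_zero]
    refine h3 ?_ x
    refine hD1.lt_of_ne fun h4 => ?_
    rw [map_pow, h4, one_pow] at h
    exact absurd h (lt_irrefl _)

/-- `g(x) + c` is tame outside the degree of `g` and the places where `g` is not integral or its
leading coefficient is not a unit -/
lemma tame_const {K : Type} [Field K] {w : Valuation K ℤᵐ⁰} {g : K[X]} {c x₀ : K} (ν : ℕ)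
    (hd : 2 ≤ g.natDegree) (hwd : w ((g.natDegree : ℕ) : K) = 1)
    (h1 : ∀ i, w (g.coeff i) ≤ 1) (h2 : w g.leadingCoeff = 1)
    (h3 : ∀ k : ℤ, 0 < k → log (w c) = g.natDegree * k → (ν : ℤ) ∣ k)
    (h0 : Pre g c x₀) : Tame (ν * (g.natDegree - 1)) w (g + C c) := by
  have hg : IG w g := ⟨h1, h2⟩
  have hdeg : (g + C c).natDegree = g.natDegree := natDegree_add_C
  have hlead : (g + C c).leadingCoeff = g.leadingCoeff := by
    rw [leadingCoeff, hdeg, coeff_add, coeff_C_of_ne_zero (by omega), add_zero, leadingCoeff]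
  rcases le_or_gt (w c) 1 with hc | hc
  · refine tame_good _ (fun i => ?_) (by rw [hlead]; exact h2)
    rw [coeff_add]
    refine (Valuation.map_add w _ _).trans (max_le (h1 i) ?_)
    rw [coeff_C]
    split_ifs
    · exact hc
    · rw [map_zero]; exact zero_le
  · -- the absolute value of the point
    have hV := pre_eq hg hd hc h0
    have hV1 : 1 < w x₀ := by
      by_contra hle
      push Not at hle
      have h2 : w x₀ ^ g.natDegree ≤ 1 := pow_le_one' hle _
      rw [hV] at h2
      exact absurd hc (not_lt.2 h2)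
    have hV0 : w x₀ ≠ 0 := (zero_lt_one.trans hV1).ne'
    have hx0 : x₀ ≠ 0 := (Valuation.ne_zero_iff w).1 hV0
    have hk : 0 < log (w x₀) := by
      have h2 : log (1 : ℤᵐ⁰) < log (w x₀) := (log_lt_log one_ne_zero hV0).2 hV1
      rwa [log_one] at h2
    have hν : (ν : ℤ) ∣ log (w x₀) := by
      refine h3 _ hk ?_
      rw [← hV, log_pow, nsmul_eq_mul]
    set d := g.natDegree with hdd
    set t : K := x₀⁻¹ with ht
    have ht0 : t ≠ 0 := inv_ne_zero hx0
    have hwt : w t = (w x₀)⁻¹ := map_inv₀ w x₀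
    have hwt1 : w t < 1 := by
      rw [hwt]
      exact inv_lt_one_of_one_lt₀ hV1
    -- the polynomial in the new coordinate
    set F : K[X] := C (t ^ d) * (g + C c).comp (C x₀ * X) with hF
    have hFc : ∀ i, i ≤ d → F.coeff i = t ^ (d - i) * (g + C c).coeff i := by
      intro i hi
      rw [hF, coeff_C_mul, comp_C_mul_X_coeff]
      have e : t ^ d = t ^ (d - i) * t ^ i := by rw [← pow_add, Nat.sub_add_cancel hi]
      rw [e, ht]
      have e2 : x₀⁻¹ ^ i * x₀ ^ i = 1 := by rw [← mul_pow, inv_mul_cancel₀ hx0, one_pow]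
      linear_combination (x₀⁻¹ ^ (d - i) * (g + C c).coeff i) * e2
    have hFd : F.natDegree = d := by
      rw [hF, natDegree_C_mul (pow_ne_zero _ ht0), natDegree_comp, natDegree_C_mul_X _ hx0,
        mul_one, hdeg]
    have hFint : ∀ i, w (F.coeff i) ≤ 1 := by
      intro i
      rcases le_or_gt i d with hi | hi
      · rw [hFc i hi]
        rcases Nat.eq_zero_or_pos i with rfl | hi0
        · rw [coeff_add, coeff_C_zero, Nat.sub_zero, mul_add]
          refine (Valuation.map_add w _ _).trans (max_le ?_ ?_)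
          · rw [map_mul, map_pow]
            exact mul_le_one' (pow_le_one' hwt1.le _) (h1 0)
          · rw [map_mul, map_pow, hwt, ← hV, ← mul_pow, inv_mul_cancel₀ hV0, one_pow]
        · rw [coeff_add, coeff_C_of_ne_zero (by omega), add_zero, map_mul, map_pow]
          exact mul_le_one' (pow_le_one' hwt1.le _) (h1 i)
      · rw [coeff_eq_zero_of_natDegree_lt (by rw [hFd]; exact hi), map_zero]
        exact zero_le
    have hFlead : F.leadingCoeff = g.leadingCoeff := by
      rw [leadingCoeff, hFd, hFc d le_rfl, Nat.sub_self, pow_zero, one_mul, ← hdeg,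
        coeff_natDegree, hlead]
    have hF0 : ∀ x : K, w x ≤ 1 → w (F.eval x) < 1 → w x = 1 := by
      intro x hx hFx
      by_contra hne
      have hlt : w x < 1 := lt_of_le_of_ne hx hne
      have h5 : w (F.coeff 0) = 1 := by
        rw [hFc 0 (Nat.zero_le _), coeff_add, coeff_C_zero, Nat.sub_zero, mul_add]
        have h6 : w (t ^ d * c) = 1 := by
          rw [map_mul, map_pow, hwt, ← hV, ← mul_pow, inv_mul_cancel₀ hV0, one_pow]
        rw [Valuation.map_add_eq_of_lt_right, h6]
        rw [h6, map_mul, map_pow]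
        calc w t ^ d * w (g.coeff 0) ≤ w t ^ d * 1 := mul_le_mul_right (h1 0) _
          _ = w t ^ d := mul_one _
          _ < 1 := pow_lt_one₀ zero_le hwt1 (by omega)
      have h7 : w (F.eval x - F.eval 0) ≤ w (x - 0) := by
        have hIF : IG w F := ⟨hFint, by rw [hFlead]; exact h2⟩
        have h8 := lip (c := (0 : K)) hIF hx (y := 0) (by rw [map_zero]; exact zero_le)
        rwa [fg, fg, add_zero, add_zero] at h8
      rw [sub_zero, ← coeff_zero_eq_eval_zero] at h7
      have h9 : F.coeff 0 = F.eval x - (F.eval x - F.coeff 0) := by ring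
      have h10 : w (F.coeff 0) < 1 := by
        rw [h9]
        exact (Valuation.map_sub w _ _).trans_lt (max_lt hFx (h7.trans_lt hlt))
      rw [h5] at h10
      exact lt_irrefl _ h10
    refine ⟨K, inferInstance, w, RingHom.id K, 1, t, 0, t ^ (d - 1), F, one_ne_zero,
      fun x => ?_, ht0, pow_ne_zero _ ht0, ?_, hFint, by rw [hFlead]; exact h2, ?_,
      fun h => ⟨Or.inr ?_, fun x hx hFx => ?_⟩⟩
    · rw [RingHom.id_apply, pow_one]
    · rw [C_0, add_zero, add_zero, map_id, hF, mul_comp, C_comp, comp_assoc, mul_comp, C_comp,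
        X_comp, ← mul_assoc, ← C_mul, ht, mul_inv_cancel₀ hx0, C_1, one_mul, comp_X, ← mul_assoc,
        ← C_mul, ← pow_succ, Nat.sub_add_cancel (by omega)]
    · rw [map_pow]
      exact pow_le_one' hwt1.le _
    · rw [map_pow, log_pow, hwt, log_inv, nsmul_eq_mul, Nat.cast_one, mul_one, Nat.cast_mul,
        mul_comm (ν : ℤ), mul_neg]
      exact (mul_dvd_mul_left _ hν).neg_right
    · rw [RingHom.id_apply, add_zero] at hx hFx ⊢
      set y := t * x with hy
      have hy1 := hF0 y hx hFx
      rw [derivative_eval, sum_over_range' _ (by intro n; ring) (d + 1) (by rw [hFd]; omega),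
        Finset.sum_range_succ]
      have h11 : w (F.coeff d * (d : K) * y ^ (d - 1)) = 1 := by
        rw [map_mul, map_mul, map_pow, hy1, one_pow, hwd, hFc d le_rfl, Nat.sub_self, pow_zero,
          one_mul, ← hdeg, coeff_natDegree, hlead, h2, one_mul, one_mul]
      rw [Valuation.map_add_eq_of_lt_right, h11]
      rw [h11]
      refine Valuation.map_sum_lt w one_ne_zero fun i hi => ?_
      rw [Finset.mem_range] at hi
      have hcast : w ((i : ℕ) : K) ≤ 1 := by
        clear hi
        induction i with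
        | zero => rw [Nat.cast_zero, map_zero]; exact zero_le
        | succ n ih =>
          rw [Nat.cast_succ]
          exact (Valuation.map_add w _ _).trans (max_le ih (by rw [map_one]))
      rcases Nat.eq_zero_or_pos i with rfl | hi0
      · rw [Nat.cast_zero, mul_zero, zero_mul, map_zero]
        exact zero_lt_one
      · rw [map_mul, map_mul, map_pow, hy1, one_pow, mul_one, hFc i hi.le, coeff_add,
          coeff_C_of_ne_zero (by omega), add_zero, map_mul, map_pow]
        calc w t ^ (d - i) * w (g.coeff i) * w ((i : ℕ) : K) ≤ w t ^ (d - i) * 1 * 1 :=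
              mul_le_mul' (mul_le_mul_right (h1 i) _) hcast
          _ = w t ^ (d - i) := by rw [mul_one, mul_one]
          _ < 1 := pow_lt_one₀ zero_le hwt1 (by omega)

end Pool.Agent.PDQ
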