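import Pool.Agent.PDQ.SymTame

set_option autoImplicit false

/-!
# PDQ: the two theorems
-/

open Polynomial NumberField IsDedekindDomain
open scoped WithZero Nat

noncomputable section

namespace Pool.Agent.PDQ

open Pool.Agent.PDP

/-- uniform bounds for polynomials which are tame outside `N` -/
theorem thmA (hG : HMW.T_KGU) (K : Type) [Field K] [NumberField K] (M N : ℕ) (hM : 5 ≤ M)
    (hN : N ≠ 0) : ∃ B : ℕ, ∀ f : K[X], 2 ≤ f.natDegree →
    ((∃ x : K, (Set.range fun k : ℕ => (fun y => f.eval y)^[k] x).Finite) →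
      ∀ v : HeightOneSpectrum (𝓞 K), (N : 𝓞 K) ∉ v.asIdeal → Tame M (v.valuation K) f) →
    (∀ x ∈ Function.periodicPts (fun y => f.eval y), ∀ q : ℕ, Odd q →
      q ∣ Function.minimalPeriod (fun y => f.eval y) x → q ≤ B) ∧
    ∀ r : ℕ, {x : K | ∃ k n : ℕ, Function.minimalPeriod (fun y => f.eval y)
      ((fun y => f.eval y)^[k] x) = n ∧ 0 < n ∧ (k = 0 ∨ 3 ≤ n) ∧
      (¬ 2 ^ r ∣ n ∨ 2 ∣ M)}.encard ≤ ((f.natDegree ^ (B * 2 ^ r) : ℕ) : ℕ∞) := by
  obtain ⟨A, hA0, hA⟩ := sys_of_tame K M N (by omega) hN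
  obtain ⟨B, hB⟩ := main12 hG K A hA0 M hM
  refine ⟨B, fun f hd hf => ?_⟩
  rw [← fg_zero]
  refine hB f _ hd (hA f hd fun hx => hf ?_) fun x hx => hx
  obtain ⟨x, hx⟩ := hx
  refine ⟨x, ?_⟩
  unfold Pre at hx
  rwa [fg_zero] at hx

/-- a set all of whose finite subsets are small is small -/
lemma encard_le_of {α : Type*} {S : Set α} {B : ℕ}
    (h : ∀ s : Finset α, (∀ x ∈ s, x ∈ S) → s.card ≤ B) : S.encard ≤ (B : ℕ∞) := by
  classical
  by_contra hcon
  push Not at hcon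
  have h1 : ((B + 1 : ℕ) : ℕ∞) ≤ S.encard := by
    rw [Nat.cast_add, Nat.cast_one]
    exact Order.add_one_le_of_lt hcon
  obtain ⟨t, ht, hc⟩ := Set.exists_subset_encard_eq h1
  have hfin : t.Finite := Set.finite_of_encard_eq_coe hc
  have h2 := h hfin.toFinset fun x hx => ht (hfin.mem_toFinset.1 hx)
  rw [hfin.encard_eq_coe_toFinset_card] at hc
  have h3 : hfin.toFinset.card = B + 1 := by exact_mod_cast hc
  omega

/-- uniform bounds for polynomials in `x^m` which are tame outside `N` -/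
theorem thmB (hG : HMW.T_KGU) (K : Type) [Field K] [NumberField K] (M N m : ℕ) (hM : 5 ≤ M)
    (hN : N ≠ 0) (hm : 3 ≤ m) (ζ : K) (hζ : IsPrimitiveRoot ζ m) : ∃ B : ℕ, ∀ G : K[X],
    1 ≤ G.natDegree →
    ((∃ x : K, (Set.range fun k : ℕ => (fun y => G.eval (y ^ m))^[k] x).Finite) →
      ∀ v : HeightOneSpectrum (𝓞 K), (N : 𝓞 K) ∉ v.asIdeal →
        Tame M (v.valuation K) (Polynomial.expand K m G)) →
    (Function.periodicPts (fun y => G.eval (y ^ m))).encard ≤ (B : ℕ∞) ∧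
    {x : K | ∃ k : ℕ, 2 ≤ Function.minimalPeriod (fun y => G.eval (y ^ m))
      ((fun y => G.eval (y ^ m))^[k] x)}.encard ≤ (((m * G.natDegree) ^ B : ℕ) : ℕ∞) := by
  classical
  obtain ⟨A, hA0, hA⟩ := sysS_of_tame K M N m (by omega) hN hm ζ hζ
  obtain ⟨B₁, hB₁⟩ := sym_cyc hG K A hA0 M m hM hm ζ hζ
  obtain ⟨B₂, hB₂⟩ := sym_tail hG K A hA0 M m hM hm ζ hζ
  obtain ⟨B₃, hB₃⟩ := tail_le hG K A hA0 M hM
  set Λ : ℕ := B₁ ! with hΛ
  have hΛ0 : 0 < Λ := Nat.factorial_pos _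
  refine ⟨B₁ + ((B₂ + 1) + (B₃ + 1) * Λ + Λ), fun G hGd hf => ?_⟩
  have hfun : (fun y => G.eval (y ^ m)) = fg (Polynomial.expand K m G) 0 := by
    funext y
    rw [fg_expand, add_zero]
  have hdeg : (Polynomial.expand K m G).natDegree = m * G.natDegree := by
    rw [natDegree_expand, mul_comm]
  have hd : 2 ≤ (Polynomial.expand K m G).natDegree := by
    rw [hdeg]
    calc 2 ≤ m * 1 := by omega
      _ ≤ m * G.natDegree := Nat.mul_le_mul_left _ hGd
  rw [hfun] at hf ⊢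
  set F := Polynomial.expand K m G with hF
  have hS : SysS A M m (fg F 0) {x | Pre F 0 x} := hA G hd hf
  have hper : ∀ x ∈ Function.periodicPts (fg F 0), Pre F 0 x := by
    rintro x ⟨n, hn, hx⟩
    exact pre_of_periodic hn hx
  have hcyc : ∀ s : Finset K, (∀ x ∈ s, x ∈ Function.periodicPts (fg F 0)) → s.card ≤ B₁ :=
    fun s hs => hB₁ _ _ hS s fun x hx => ⟨hper x (hs x hx), hs x hx⟩
  constructor
  · refine (encard_le_of hcyc).trans (Nat.cast_le.2 (Nat.le_add_right _ _))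
  · rw [← hdeg]
    have hpow : ((F.natDegree ^ ((B₂ + 1) + (B₃ + 1) * Λ + Λ) : ℕ) : ℕ∞) ≤
        ((F.natDegree ^ (B₁ + ((B₂ + 1) + (B₃ + 1) * Λ + Λ)) : ℕ) : ℕ∞) :=
      Nat.cast_le.2 (Nat.pow_le_pow_right (by omega) (Nat.le_add_left _ _))
    refine le_trans ?_ hpow
    refine few_points (c := 0) hd rfl Λ ((B₂ + 1) + (B₃ + 1) * Λ) hΛ0 _ ?_
    rintro x ⟨k, hk⟩
    obtain ⟨n, hn⟩ : ∃ n, n = Function.minimalPeriod (fg F 0) ((fg F 0)^[k] x) := ⟨_, rfl⟩
    rw [← hn] at hk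
    have hn0 : 0 < n := by omega
    have hkper : (fg F 0)^[k] x ∈ Function.periodicPts (fg F 0) :=
      Function.minimalPeriod_pos_iff_mem_periodicPts.1 (by rw [← hn]; exact hn0)
    have hxT : Pre F 0 x := pre_of_it k (hper _ hkper)
    have hcard : n ≤ B₁ := by
      have hinj : Set.InjOn (fun i => (fg F 0)^[i] ((fg F 0)^[k] x)) (Finset.range n) := by
        intro i hi j hj hij
        rw [Finset.mem_coe, Finset.mem_range] at hi hj
        by_contra hcon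
        exact PDQ.cyc_ne (f := fg F 0) (x := (fg F 0)^[k] x) (by rw [← hn]; exact hi)
          (by rw [← hn]; exact hj) hcon hij
      have h1 := hcyc ((Finset.range n).image fun i => (fg F 0)^[i] ((fg F 0)^[k] x)) (by
        intro y hy
        obtain ⟨i, -, rfl⟩ := Finset.mem_image.1 hy
        exact per_it hkper i)
      rwa [Finset.card_image_of_injOn hinj, Finset.card_range] at h1
    have hdv : n ∣ Λ := Nat.dvd_factorial hn0 hcard
    refine ⟨k, by rw [← hn]; exact hn0, by rw [← hn]; exact hdv, fun t ht _ hper' => ?_⟩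
    rw [← hn] at hper'
    rcases hk.lt_or_eq with hk3 | hk2
    · calc t + 1 ≤ (B₃ + 1) * n := hB₃ _ _ hS.sys x n t hxT hk3 hper' ht
        _ ≤ (B₃ + 1) * Λ := Nat.mul_le_mul_left _ (Nat.le_of_dvd hΛ0 hdv)
        _ ≤ (B₂ + 1) + (B₃ + 1) * Λ := Nat.le_add_left _ _
    · have h1 := hB₂ _ _ hS x t hxT (by rw [hper', hk2]) ht
      omega

end Pool.Agent.PDQ
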