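import Pool.Agent.PDQ.Tame
import Pool.Agent.PDP.SymTail

set_option autoImplicit false

/-!
# PDQ: polynomials in `x^m`, the abstract setting
-/

open Polynomial NumberField IsDedekindDomain
open scoped WithZero

noncomputable section

namespace Pool.Agent.PDQ

open Pool.Agent.PDP WithZero

/-- over an extension field, in a coordinate `t x`, the map `f` is a polynomial in `X^m` with good
reduction -/
def GS {K Γ : Type} [Field K] [LinearOrderedCommGroupWithZero Γ] (m : ℕ) (w : Valuation K Γ)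
    (f : K → K) : Prop :=
  ∃ (L : Type) (_ : Field L) (Δ : Type) (_ : LinearOrderedCommGroupWithZero Δ)
    (u : Valuation L Δ) (φ : K →+* L) (t c : L) (g : L[X]),
    (∀ x y, u (φ x) = u (φ y) → w x = w y) ∧ t ≠ 0 ∧ IG u (Polynomial.expand L m g) ∧ u c ≤ 1 ∧
    2 ≤ (Polynomial.expand L m g).natDegree ∧
    ∀ x, fg (Polynomial.expand L m g) c (t * φ x + 0) = t * φ (f x) + 0

section Gs

variable {K Γ : Type} [Field K] [LinearOrderedCommGroupWithZero Γ] {w : Valuation K Γ} {f : K → K}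
  {m : ℕ}

lemma gs_gp (h : GS m w f) : GP w f := by
  obtain ⟨L, iL, Δ, iΔ, u, φ, t, c, g, hu, ht, hg, hc, hd, hf⟩ := h
  exact ⟨L, iL, Δ, iΔ, u, φ, t, 0, c, _, hu, ht, hg, hc, hd, hf⟩

/-- periodic points -/
lemma gs_unit (hm : 0 < m) (h : GS m w f) : ∃ C : Γ, ∀ (x z ω : K), x ∈ Function.periodicPts f →
    z ∈ Function.periodicPts f → x ≠ z → ω ^ m = 1 → ω ≠ 1 → w (x - ω * z) = C := by
  obtain ⟨L, iL, Δ, iΔ, u, φ, t, c, g, hu, ht, hg, hc, hd, hf⟩ := h
  obtain ⟨C, hC⟩ := const_of (α := K × K × K) (fun p => p.1 ∈ Function.periodicPts f ∧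
    p.2.1 ∈ Function.periodicPts f ∧ p.1 ≠ p.2.1 ∧ p.2.2 ^ m = 1 ∧ p.2.2 ≠ 1)
    (fun p => w (p.1 - p.2.2 * p.2.1)) (by
      have key : ∀ p : K × K × K, (p.1 ∈ Function.periodicPts f ∧
          p.2.1 ∈ Function.periodicPts f ∧ p.1 ≠ p.2.1 ∧ p.2.2 ^ m = 1 ∧ p.2.2 ≠ 1) →
          u (φ (p.1 - p.2.2 * p.2.1)) = (u t)⁻¹ := by
        rintro ⟨x, z, ω⟩ ⟨hx, hz, hxz, hω, hω1⟩
        dsimp only at hx hz hxz hω hω1 ⊢
        have px := (cj_mem ht hf x).2 hx
        have pz := (cj_mem ht hf z).2 hz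
        have hpre : ∀ y : L, y ∈ Function.periodicPts (fg (Polynomial.expand L m g) c) →
            Pre (Polynomial.expand L m g) c y := by
          rintro y ⟨n, hn, hy⟩
          exact pre_of_periodic hn hy
        have hne : t * φ x + 0 ≠ t * φ z + 0 := by
          intro h1
          exact hxz (φ.injective (mul_left_cancel₀ ht (add_right_cancel h1)))
        have hω' : φ ω ^ m = 1 := by rw [← map_pow, hω, map_one]
        have hω1' : φ ω ≠ 1 := by
          intro h1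
          exact hω1 (φ.injective (h1.trans (map_one φ).symm))
        have h1 := sym_unit (c := c) hm hω' hω1' hg (pre_le hg hd hc (hpre _ px))
          (pre_le hg hd hc (hpre _ pz)) hne (per_const hg hd hc px pz)
        have e : t * φ x + 0 - φ ω * (t * φ z + 0) = t * φ (x - ω * z) := by
          rw [map_sub, map_mul]; ring
        rw [e, map_mul] at h1
        exact eq_inv_of_mul_eq_one_right h1
      intro p q hp hq
      exact hu _ _ ((key p hp).trans (key q hq).symm))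
  exact ⟨C, fun x z ω h1 h2 h3 h4 h5 => hC (x, z, ω) ⟨h1, h2, h3, h4, h5⟩⟩

/-- tails of cycles of length two -/
lemma gs_tail (hm : 0 < m) (h : GS m w f) : ∃ C : Γ, ∀ (x : K) (s : ℕ),
    Function.minimalPeriod f (f^[s + 1] x) = 2 → f^[s] x ∉ Function.periodicPts f →
    ∀ (i j : ℕ) (ω : K), i < s → j < s → i % 2 ≠ j % 2 → ω ^ m = 1 →
    w (f^[i] x - ω * f^[j] x) = C := by
  obtain ⟨L, iL, Δ, iΔ, u, φ, t, c, g, hu, ht, hg, hc, hd, hf⟩ := h
  obtain ⟨C, hC⟩ := const_of (α := K × ℕ × ℕ × K) (fun p => ∃ s : ℕ,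
    Function.minimalPeriod f (f^[s + 1] p.1) = 2 ∧ f^[s] p.1 ∉ Function.periodicPts f ∧
    p.2.1 < s ∧ p.2.2.1 < s ∧ p.2.1 % 2 ≠ p.2.2.1 % 2 ∧ p.2.2.2 ^ m = 1)
    (fun p => w (f^[p.2.1] p.1 - p.2.2.2 * f^[p.2.2.1] p.1)) (by
      have key : ∀ p : K × ℕ × ℕ × K, (∃ s : ℕ,
          Function.minimalPeriod f (f^[s + 1] p.1) = 2 ∧ f^[s] p.1 ∉ Function.periodicPts f ∧
          p.2.1 < s ∧ p.2.2.1 < s ∧ p.2.1 % 2 ≠ p.2.2.1 % 2 ∧ p.2.2.2 ^ m = 1) →
          u (φ (f^[p.2.1] p.1 - p.2.2.2 * f^[p.2.2.1] p.1)) = (u t)⁻¹ := by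
        rintro ⟨x, i, j, ω⟩ ⟨s, hper, hnot, hi, hj, hij, hω⟩
        dsimp only at hper hnot hi hj hij hω ⊢
        set F := fg (Polynomial.expand L m g) c with hF
        have hit := cj_it hf
        have hper' : Function.minimalPeriod F (F^[s + 1] (t * φ x + 0)) = 2 := by
          rw [hit, cj_min ht hf, hper]
        have hfix : F^[2] (F^[s + 1] (t * φ x + 0)) = F^[s + 1] (t * φ x + 0) := by
          rw [← hper']
          exact Function.iterate_minimalPeriod
        have px : Pre (Polynomial.expand L m g) c (t * φ x + 0) :=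
          pre_of_it (s + 1) (pre_of_periodic (by norm_num) hfix)
        have hnp : ∀ i, i ≤ s → F^[i] (t * φ x + 0) ∉ Function.periodicPts F := by
          intro i hi hmem
          have h1 : F^[s - i] (F^[i] (t * φ x + 0)) ∈ Function.periodicPts F := per_it hmem _
          rw [← Function.iterate_add_apply, Nat.sub_add_cancel hi, hit, cj_mem ht hf] at h1
          exact hnot h1
        have hone' : ∀ i j, i ≤ s → i < j → ¬ 2 ∣ (j - i) →
            u (F^[i] (t * φ x + 0) - F^[j] (t * φ x + 0)) = 1 := by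
          intro i j hi hij hnd
          have e : F^[j] (t * φ x + 0) = F^[j - i] (F^[i] (t * φ x + 0)) := by
            rw [← Function.iterate_add_apply, Nat.sub_add_cancel hij.le]
          rw [e]
          refine tail_one hg hd hc (t := s + 1 - i) (by norm_num) ?_ (hnp i hi) hnd
          change Function.minimalPeriod F (F^[s + 1 - i] (F^[i] (t * φ x + 0))) = 2
          rw [← Function.iterate_add_apply, show s + 1 - i + i = s + 1 by omega]
          exact hper'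
        have hone : ∀ i j, i ≤ s → j ≤ s → i % 2 ≠ j % 2 →
            u (F^[i] (t * φ x + 0) - F^[j] (t * φ x + 0)) = 1 := by
          intro i j hi hj hij
          rcases lt_trichotomy i j with h1 | h1 | h1
          · exact hone' i j hi h1 (by omega)
          · exact absurd (by rw [h1]) hij
          · rw [Valuation.map_sub_swap]
            exact hone' j i hj h1 (by omega)
        have hω' : φ ω ^ m = 1 := by rw [← map_pow, hω, map_one]
        have g1 : u (F^[i] (t * φ x + 0)) ≤ 1 := pre_le hg hd hc (pre_it px i)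
        have g2 : u (φ ω * F^[j] (t * φ x + 0)) ≤ 1 := by
          rw [map_mul, w_root hm hω', one_mul]
          exact pre_le hg hd hc (pre_it px j)
        have h1 : u (F^[i] (t * φ x + 0) - φ ω * F^[j] (t * φ x + 0)) = 1 := by
          refine le_antisymm ((Valuation.map_sub _ _ _).trans (max_le g1 g2)) ?_
          have g3 := lip (c := c) hg g1 g2
          rw [fg_rot hω', ← hF, ← Function.iterate_succ_apply' F, ← Function.iterate_succ_apply' F,
            hone (i + 1) (j + 1) hi hj (by omega)] at g3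
          exact g3
        rw [hit, hit] at h1
        have e : t * φ (f^[i] x) + 0 - φ ω * (t * φ (f^[j] x) + 0) =
            t * φ (f^[i] x - ω * f^[j] x) := by
          rw [map_sub, map_mul]; ring
        rw [e, map_mul] at h1
        exact eq_inv_of_mul_eq_one_right h1
      intro p q hp hq
      exact hu _ _ ((key p hp).trans (key q hq).symm))
  exact ⟨C, fun x s h1 h2 i j ω h3 h4 h5 h6 => hC (x, i, j, ω) ⟨s, h1, h2, h3, h4, h5, h6⟩⟩

end Gs

/-- the abstract setting for polynomials in `x^m` -/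
structure SysS {K : Type} [Field K] [NumberField K] (A : Finset K) (M m : ℕ) (f : K → K)
    (T : Set K) : Prop where
  map : ∀ x ∈ T, f x ∈ T
  rot : ∀ x ∈ T, ∀ ω : K, ω ^ m = 1 → ω * x ∈ T
  inv : ∀ ω x : K, ω ^ m = 1 → f (ω * x) = f x
  pow : ∀ p ∈ T, ∀ q ∈ T, ∀ p' ∈ T, ∀ q' ∈ T, p ≠ q → p' ≠ q' →
    (∀ v : HeightOneSpectrum (𝓞 K), GS m (v.valuation K) f →
      v.valuation K (p - q) = v.valuation K (p' - q')) →
    ∃ a ∈ A, ∃ z : K, z ≠ 0 ∧ p - q = a * z ^ M * (p' - q')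

lemma SysS.sys {K : Type} [Field K] [NumberField K] {A : Finset K} {M m : ℕ} {f : K → K}
    {T : Set K} (h : SysS A M m f T) : Sys A M f T :=
  ⟨h.map, fun p hp q hq p' hp' q' hq' h1 h2 h3 =>
    h.pow p hp q hq p' hp' q' hq' h1 h2 fun v hv => h3 v (gs_gp hv)⟩

lemma inj_per {K : Type} {f : K → K} {x z : K} (hx : x ∈ Function.periodicPts f)
    (hz : z ∈ Function.periodicPts f) (h : f x = f z) : x = z := by
  obtain ⟨a, ha, hxa⟩ := hx
  obtain ⟨b, hb, hzb⟩ := hz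
  have h1 : f^[a * b] x = x := hxa.mul_const b
  have h2 : f^[a * b] z = z := by
    rw [mul_comm]
    exact hzb.mul_const a
  have hab : 0 < a * b := Nat.mul_pos ha hb
  obtain ⟨k, hk⟩ : ∃ k, a * b = k + 1 := ⟨a * b - 1, by omega⟩
  rw [← h1, ← h2, hk, Function.iterate_succ_apply, Function.iterate_succ_apply, h]

/-- the number of periodic points -/
theorem sym_cyc (hG : HMW.T_KGU) (K : Type) [Field K] [NumberField K] (A : Finset K)
    (hA0 : ∀ a ∈ A, a ≠ 0) (M m : ℕ) (hM : 5 ≤ M) (hm : 3 ≤ m) (ζ : K)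
    (hζ : IsPrimitiveRoot ζ m) : ∃ B : ℕ, ∀ (f : K → K) (T : Set K), SysS A M m f T →
    ∀ S : Finset K, (∀ x ∈ S, x ∈ T ∧ x ∈ Function.periodicPts f) → S.card ≤ B := by
  classical
  have hζ0 : ζ ≠ 0 := hζ.ne_zero (by omega)
  set A' : Finset K := (A.image fun a => -(ζ⁻¹) ^ 2 * a) ∪ (A.image fun a => -ζ⁻¹ * a) with hA'
  have hA'0 : ∀ a ∈ A', a ≠ 0 := by
    intro a ha
    rw [hA', Finset.mem_union, Finset.mem_image, Finset.mem_image] at ha
    have h1 : ζ⁻¹ ≠ 0 := inv_ne_zero hζ0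
    rcases ha with ⟨b, hb, rfl⟩ | ⟨b, hb, rfl⟩
    · exact mul_ne_zero (neg_ne_zero.2 (pow_ne_zero _ h1)) (hA0 _ hb)
    · exact mul_ne_zero (neg_ne_zero.2 h1) (hA0 _ hb)
  obtain ⟨B, hB⟩ := wb hG K A' hA'0 M hM
  refine ⟨2 * B + 2, fun f T h S hS => ?_⟩
  by_contra hcon
  push Not at hcon
  obtain ⟨x, hx⟩ : S.Nonempty := Finset.card_pos.1 (by omega)
  have hcx : (S.erase x).card = S.card - 1 := Finset.card_erase_of_mem hx
  obtain ⟨Y, hYs, hYc⟩ := Finset.exists_subset_card_eq (s := S.erase x) (n := B + 1) (by omega)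
  have hcx2 : ((S.erase x) \ Y).card = S.card - 1 - (B + 1) := by
    rw [Finset.card_sdiff_of_subset hYs, hcx, hYc]
  obtain ⟨Z, hZs, hZc⟩ := Finset.exists_subset_card_eq (s := (S.erase x) \ Y) (n := B + 1)
    (by omega)
  set ρ := ζ ^ (m - 2) with hρdef
  have hρ : ζ ^ 2 * ρ = 1 := by
    rw [hρdef, ← pow_add, show 2 + (m - 2) = m by omega, hζ.pow_eq_one]
  have hζm : ζ ^ m = 1 := hζ.pow_eq_one
  have hρm : ρ ^ m = 1 := by rw [hρdef, ← pow_mul, mul_comm, pow_mul, hζm, one_pow]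
  have hζ1 : ζ ≠ 1 := hζ.ne_one (by omega)
  have hρ1 : ρ ≠ 1 := hζ.pow_ne_one_of_pos_of_lt (by omega) (by omega)
  have hne : ∀ y ∈ S, ∀ z ∈ S, y ≠ z → ∀ ω : K, ω ^ m = 1 → y ≠ ω * z := by
    intro y hy z hz hyz ω hω he
    apply hyz
    refine inj_per (hS y hy).2 (hS z hz).2 ?_
    rw [he, h.inv ω z hω]
  have hpow : ∀ y ∈ S, ∀ z ∈ S, ∀ y' ∈ S, ∀ z' ∈ S, y ≠ z → y' ≠ z' → ∀ ω ω' : K, ω ^ m = 1 →
      ω' ^ m = 1 → ω ≠ 1 → ω' ≠ 1 → ∃ a ∈ A, ∃ t : K, t ≠ 0 ∧
      y - ω * z = a * t ^ M * (y' - ω' * z') := by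
    intro y hy z hz y' hy' z' hz' h1 h2 ω ω' hω hω' e1 e2
    refine h.pow _ (hS y hy).1 _ (h.rot _ (hS z hz).1 ω hω) _ (hS y' hy').1 _
      (h.rot _ (hS z' hz').1 ω' hω') (hne y hy z hz h1 ω hω) (hne y' hy' z' hz' h2 ω' hω')
      fun v hv => ?_
    obtain ⟨C, hC⟩ := gs_unit (by omega) hv
    rw [hC y z ω (hS y hy).2 (hS z hz).2 h1 hω e1, hC y' z' ω' (hS y' hy').2 (hS z' hz').2 h2 hω'
      e2]
  have hY : ∀ y ∈ Y, y ∈ S ∧ y ≠ x := by
    intro y hy
    have := hYs hy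
    rw [Finset.mem_erase] at this
    exact ⟨this.2, this.1⟩
  have hZ : ∀ z ∈ Z, z ∈ S ∧ z ≠ x ∧ z ∉ Y := by
    intro z hz
    have := hZs hz
    rw [Finset.mem_sdiff, Finset.mem_erase] at this
    exact ⟨this.1.2, this.1.1, this.2⟩
  have hζi : ζ⁻¹ ≠ 0 := inv_ne_zero hζ0
  have hfin := hB (Y.image fun y => -(ζ⁻¹) ^ 2 * (x - ζ * y)) (Z.image fun z => z - ρ * x) (by
      intro p hp
      obtain ⟨y, hy, rfl⟩ := Finset.mem_image.1 hp
      exact mul_ne_zero (neg_ne_zero.2 (pow_ne_zero _ hζi))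
        (sub_ne_zero.2 (hne x hx y (hY y hy).1 (hY y hy).2.symm ζ hζm))) (by
      intro q hq
      obtain ⟨z, hz, rfl⟩ := Finset.mem_image.1 hq
      exact sub_ne_zero.2 (hne z (hZ z hz).1 x hx (hZ z hz).2.1 ρ hρm)) (by
      intro p hp q hq
      obtain ⟨y, hy, rfl⟩ := Finset.mem_image.1 hp
      obtain ⟨z, hz, rfl⟩ := Finset.mem_image.1 hq
      obtain ⟨yS, yx⟩ := hY y hy
      obtain ⟨zS, zx, zY⟩ := hZ z hz
      have hyz : y ≠ z := fun he => zY (he ▸ hy)
      obtain ⟨a, ha, t, -, e1⟩ := hpow x hx y yS z zS x hx yx.symm zx ζ ρ hζm hρm hζ1 hρ1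
      obtain ⟨b, hb, t', -, e2⟩ := hpow y yS z zS z zS x hx hyz zx ζ ρ hζm hρm hζ1 hρ1
      obtain ⟨r1, r2⟩ := three hρ (sub_ne_zero.2 (hne z zS x hx zx ρ hρm)) e1 e2
      refine ⟨⟨_, ?_, t, r1⟩, _, ?_, t', r2⟩
      · rw [hA', Finset.mem_union]
        exact Or.inl (Finset.mem_image_of_mem _ ha)
      · rw [hA', Finset.mem_union]
        exact Or.inr (Finset.mem_image_of_mem _ hb))
  rw [Finset.card_image_of_injective, Finset.card_image_of_injective, hYc, hZc] at hfin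
  · omega
  · intro a b hab
    exact sub_left_injective hab
  · intro a b hab
    have h1 : -(ζ⁻¹) ^ 2 * (x - ζ * a) = -(ζ⁻¹) ^ 2 * (x - ζ * b) := hab
    have h2 := mul_left_cancel₀ (neg_ne_zero.2 (pow_ne_zero 2 hζi)) h1
    exact mul_left_cancel₀ hζ0 (sub_right_injective h2)

/-- tails of cycles of length two -/
theorem sym_tail (hG : HMW.T_KGU) (K : Type) [Field K] [NumberField K] (A : Finset K)
    (hA0 : ∀ a ∈ A, a ≠ 0) (M m : ℕ) (hM : 5 ≤ M) (hm : 3 ≤ m) (ζ : K)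
    (hζ : IsPrimitiveRoot ζ m) : ∃ B : ℕ, ∀ (f : K → K) (T : Set K), SysS A M m f T →
    ∀ (x : K) (t : ℕ), x ∈ T → Function.minimalPeriod f (f^[t + 1] x) = 2 →
      f^[t] x ∉ Function.periodicPts f → t ≤ B := by
  classical
  have hζ0 : ζ ≠ 0 := hζ.ne_zero (by omega)
  have hζm : ζ ^ m = 1 := hζ.pow_eq_one
  have hζ1 : ζ ≠ 1 := hζ.ne_one (by omega)
  have hζ2 : ζ ^ 2 ≠ 1 := hζ.pow_ne_one_of_pos_of_lt (by omega) (by omega)
  have h1ζ : 1 + ζ ≠ 0 := by
    intro h0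
    apply hζ2
    linear_combination (ζ - 1) * h0
  set A' : Finset K := (A.image fun a => ζ / (1 + ζ) * a) ∪ (A.image fun a => (1 + ζ)⁻¹ * a)
    with hA'
  have hA'0 : ∀ a ∈ A', a ≠ 0 := by
    intro a ha
    rw [hA', Finset.mem_union, Finset.mem_image, Finset.mem_image] at ha
    rcases ha with ⟨b, hb, rfl⟩ | ⟨b, hb, rfl⟩
    · exact mul_ne_zero (div_ne_zero hζ0 h1ζ) (hA0 _ hb)
    · exact mul_ne_zero (inv_ne_zero h1ζ) (hA0 _ hb)
  obtain ⟨B, hB⟩ := win_mo hG K A' hA'0 M hM ζ hζ0 h1ζ (sub_ne_zero.2 hζ1)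
  refine ⟨2 * B + 3, fun f T h x t hxT hper hnot => ?_⟩
  set u : ℕ → K := fun i => f^[i] x with hu
  have hus : ∀ i, u (i + 1) = f (u i) := by
    intro i
    simp only [hu, Function.iterate_succ_apply']
  have hnp : ∀ i, i ≤ t → u i ∉ Function.periodicPts f := by
    intro i hi hmem
    apply hnot
    obtain ⟨k, rfl⟩ := Nat.exists_eq_add_of_le hi
    rw [add_comm i k, Function.iterate_add_apply]
    exact per_it hmem k
  -- different points
  have hne' : ∀ i j, i ≤ t → i < j → u i ≠ u j := by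
    intro i j hi hij he
    apply hnp i hi
    refine ⟨j - i, by omega, ?_⟩
    change f^[j - i] (f^[i] x) = f^[i] x
    rw [← Function.iterate_add_apply, Nat.sub_add_cancel hij.le]
    exact he.symm
  have hne : ∀ i j, i ≤ t → j ≤ t → i ≠ j → u i ≠ u j := by
    intro i j hi hj hij
    rcases lt_or_gt_of_ne hij with h1 | h1
    · exact hne' i j hi h1
    · exact (hne' j i hj h1).symm
  have hneω : ∀ i j, i < t → j < t → i % 2 ≠ j % 2 → ∀ ω : K, ω ^ m = 1 → u i ≠ ω * u j := by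
    intro i j hi hj hij ω hω he
    refine hne (i + 1) (j + 1) hi hj (by omega) ?_
    rw [hus, hus, he, h.inv _ _ hω]
  have hpow : ∀ i j i' j', i < t → j < t → i % 2 ≠ j % 2 → i' < t → j' < t → i' % 2 ≠ j' % 2 →
      ∀ ω ω' : K, ω ^ m = 1 → ω' ^ m = 1 → ∃ a ∈ A, ∃ s : K, s ≠ 0 ∧
      u i - ω * u j = a * s ^ M * (u i' - ω' * u j') := by
    intro i j i' j' hi hj hij hi' hj' hij' ω ω' hω hω'
    refine h.pow _ (h.sys.it hxT i) _ (h.rot _ (h.sys.it hxT j) ω hω) _ (h.sys.it hxT i') _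
      (h.rot _ (h.sys.it hxT j') ω' hω') (hneω i j hi hj hij ω hω)
      (hneω i' j' hi' hj' hij' ω' hω') fun v hv => ?_
    obtain ⟨C, hC⟩ := gs_tail (by omega) hv
    exact (hC x t hper hnot i j ω hi hj hij hω).trans
      (hC x t hper hnot i' j' ω' hi' hj' hij' hω').symm
  -- the two sets
  obtain ⟨s, hs⟩ : ∃ s, s = t / 2 := ⟨_, rfl⟩
  have hidx : ∀ a r, a < s → r < 2 → 2 * a + r < t := by
    intro a r ha hr
    omega
  have hcard : ∀ r, r < 2 → s - 1 ≤ (((Finset.range s).image fun a => u (2 * a + r)).erase 0).card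
      := by
    intro r hr
    refine le_trans ?_ Finset.pred_card_le_card_erase
    rw [Finset.card_image_of_injOn, Finset.card_range]
    intro a ha a' ha' he
    rw [Finset.mem_coe, Finset.mem_range] at ha ha'
    by_contra hcon
    exact hne (2 * a + r) (2 * a' + r) (hidx a r ha hr).le (hidx a' r ha' hr).le (by omega) he
  have hfin := hB (((Finset.range s).image fun a => u (2 * a + 0)).erase 0)
    (((Finset.range s).image fun a => u (2 * a + 1)).erase 0)
    (fun p hp => Finset.ne_of_mem_erase hp) (fun p hp => Finset.ne_of_mem_erase hp) (by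
    intro p hp q hq
    have hq0 : q ≠ 0 := Finset.ne_of_mem_erase hq
    obtain ⟨a, ha, rfl⟩ := Finset.mem_image.1 (Finset.mem_of_mem_erase hp)
    obtain ⟨a', ha', rfl⟩ := Finset.mem_image.1 (Finset.mem_of_mem_erase hq)
    rw [Finset.mem_range] at ha ha'
    have i1 := hidx a 0 ha (by norm_num)
    have i2 := hidx a' 1 ha' (by norm_num)
    have hpar : (2 * a + 0) % 2 ≠ (2 * a' + 1) % 2 := by omega
    have hq : u (2 * a + 0) - ζ * u (2 * a' + 1) ≠ 0 := sub_ne_zero.2 (hneω _ _ i1 i2 hpar ζ hζm)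
    obtain ⟨α, hα, z, -, e1⟩ := hpow _ _ _ _ i1 i2 hpar i1 i2 hpar 1 ζ (one_pow m) hζm
    obtain ⟨β, hβ, z', -, e2⟩ := hpow _ _ _ _ i1 i2 hpar i1 i2 hpar (ζ ^ 2) ζ
      (by rw [← pow_mul, mul_comm, pow_mul, hζm, one_pow]) hζm
    obtain ⟨r1, r2⟩ := two_alg hq0 h1ζ hq e1 e2
    refine ⟨?_, ⟨_, ?_, z, r1⟩, _, ?_, z', r2⟩
    · intro h0
      apply hq
      have h1 : u (2 * a + 0) / u (2 * a' + 1) = ζ := sub_eq_zero.1 h0
      rw [div_eq_iff hq0] at h1
      rw [h1, sub_self]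
    · rw [hA', Finset.mem_union]
      exact Or.inl (Finset.mem_image_of_mem _ hα)
    · rw [hA', Finset.mem_union]
      exact Or.inr (Finset.mem_image_of_mem _ hβ))
  have c0 := hcard 0 (by norm_num)
  have c1 := hcard 1 (by norm_num)
  omega

end Pool.Agent.PDQ
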