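import Pool.Agent.PDQ.Sym

set_option autoImplicit false

/-!
# PDQ: tame places of polynomials in `x^m`
-/

open Polynomial NumberField IsDedekindDomain
open scoped WithZero

noncomputable section

namespace Pool.Agent.PDQ

open Pool.Agent.PDP WithZero

section Loc

variable {L Γ : Type} [Field L] [LinearOrderedCommGroupWithZero Γ] {u : Valuation L Γ}

/-- a translation by an integral element preserves integrality -/
lemma ig_shift {P : L[X]} {b : L} (hP : IG u P) (hb : u b ≤ 1) : IG u (P.comp (X + C b)) := by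
  refine ⟨fun k => ?_, ?_⟩
  · rw [comp, eval₂_eq_sum_range, finsetSum_coeff]
    refine Valuation.map_sum_le u fun i _ => ?_
    rw [coeff_C_mul, coeff_X_add_C_pow, map_mul, map_mul, map_pow]
    refine mul_le_one' (hP.1 i) (mul_le_one' (pow_le_one' hb _) ?_)
    have h1 : ∀ n : ℕ, u (n : L) ≤ 1 := by
      intro n
      induction n with
      | zero => rw [Nat.cast_zero, map_zero]; exact zero_le
      | succ n ih =>
        rw [Nat.cast_succ]
        exact (Valuation.map_add u _ _).trans (max_le ih (by rw [map_one]))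
    exact h1 _
  · rw [leadingCoeff_comp (by rw [natDegree_X_add_C]; exact one_ne_zero), leadingCoeff_X_add_C,
      one_pow, mul_one]
    exact hP.2

/-- `1 - ζ` is a unit where `m` is -/
lemma root_unit {m : ℕ} {ζ : L} (hζ : ζ ^ m = 1) (hζ1 : ζ ≠ 1) (hm : 0 < m)
    (hu : u (m : L) = 1) : u (1 - ζ) = 1 := by
  have hwz : u ζ = 1 := w_root hm hζ
  have hle : u (1 - ζ) ≤ 1 :=
    (Valuation.map_sub u _ _).trans (max_le (by rw [map_one]) hwz.le)
  have h1 : (∑ j ∈ Finset.range m, Si j 1 ζ) * (1 - ζ) = (m : L) := by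
    rw [Finset.sum_mul]
    have h2 : ∀ j ∈ Finset.range m, Si j 1 ζ * (1 - ζ) = 1 - ζ ^ j := by
      intro j _
      rw [Si_mul, one_pow]
    rw [Finset.sum_congr rfl h2, Finset.sum_sub_distrib, Finset.sum_const, Finset.card_range,
      nsmul_eq_mul, mul_one]
    have h3 : (∑ j ∈ Finset.range m, ζ ^ j) * (ζ - 1) = 0 := by
      rw [geom_sum_mul, hζ, sub_self]
    rw [(mul_eq_zero.1 h3).resolve_right (sub_ne_zero.2 hζ1), sub_zero]
  have h4 : u (∑ j ∈ Finset.range m, Si j 1 ζ) ≤ 1 := by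
    refine Valuation.map_sum_le u fun j _ => ?_
    exact Si_le_one (by rw [map_one]) hwz.le j
  refine le_antisymm hle ?_
  rw [← hu, ← h1, map_mul]
  calc _ ≤ 1 * u (1 - ζ) := mul_le_mul_left h4 _
    _ = u (1 - ζ) := one_mul _

end Loc

/-- the two cases of a tame place, for a polynomial in `x^m` -/
lemma tameS_cases {K : Type} [Field K] {M m : ℕ} {w : Valuation K ℤᵐ⁰} {G : K[X]} {ζ : K}
    (hm : 0 < m) (hζ : ζ ^ m = 1) (hζ1 : ζ ≠ 1) (hwm : w (m : K) = 1)
    (hd : 2 ≤ (Polynomial.expand K m G).natDegree) (hex : ∃ x, Pre (Polynomial.expand K m G) 0 x)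
    (h : Tame M w (Polynomial.expand K m G)) :
    GS m w (fg (Polynomial.expand K m G) 0) ∨ ∀ p q p' q' : K,
      Pre (Polynomial.expand K m G) 0 p → Pre (Polynomial.expand K m G) 0 q →
      Pre (Polynomial.expand K m G) 0 p' → Pre (Polynomial.expand K m G) 0 q' →
      p ≠ q → p' ≠ q' → (M : ℤ) ∣ log (w (p - q)) - log (w (p' - q')) := by
  obtain ⟨L, iL, u, φ, ε, t, b, e, F, hε, hu, ht, he, hrel, hF1, hF2, he1, hbad⟩ := h
  have hdeg : F.natDegree = (Polynomial.expand K m G).natDegree := rel_deg ht he hrel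
  rcases he1.lt_or_eq with hlt | heq
  · refine Or.inr fun p q p' q' hp hq hp' hq' h1 h2 => ?_
    exact bad_case hd hε hu ht he hrel ⟨hF1, hF2⟩ hlt (hbad hlt).1 (hbad hlt).2 hp hq hp' hq' h1 h2
  · left
    set f := Polynomial.expand K m G with hf
    set P : L[X] := C e⁻¹ * F with hP
    have hPI : IG u P := by
      refine ⟨fun i => ?_, ?_⟩
      · rw [hP, coeff_C_mul, map_mul, map_inv₀, heq, inv_one, one_mul]
        exact hF1 i
      · rw [hP, leadingCoeff_mul, leadingCoeff_C, map_mul, map_inv₀, heq, inv_one, one_mul]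
        exact hF2
    have hPd : P.natDegree = f.natDegree := by
      rw [hP, natDegree_C_mul (inv_ne_zero he), hdeg]
    have hcj : ∀ x, fg P 0 (t * φ x + b) = t * φ (fg f 0 x) + b := rel_fg he hrel
    have hu0 : u (0 : L) ≤ 1 := by rw [map_zero]; exact zero_le
    have hint : ∀ z : K, Pre f 0 z → u (t * φ z + b) ≤ 1 := fun z hz =>
      pre_le hPI (by omega) hu0 (cj_pre hcj hz)
    obtain ⟨x, hx⟩ := hex
    have hζx : Pre f 0 (ζ * x) := pre_rot hζ hx
    have hub : u b ≤ 1 := by
      have h1 := hint x hx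
      have h2 := hint _ hζx
      have h3 : u (t * φ x * (1 - φ ζ)) ≤ 1 := by
        have e1 : t * φ x * (1 - φ ζ) = t * φ x + b - (t * φ (ζ * x) + b) := by
          rw [map_mul]; ring
        rw [e1]
        exact (Valuation.map_sub u _ _).trans (max_le h1 h2)
      have h4 : u (1 - φ ζ) = 1 := by
        have h5 := root_unit hζ hζ1 hm hwm
        rw [← map_one φ, ← map_sub, hu, h5, one_pow]
      rw [map_mul, h4, mul_one] at h3
      have e2 : b = t * φ x + b - t * φ x := by ring
      rw [e2]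
      exact (Valuation.map_sub u _ _).trans (max_le h1 h3)
    have hPrel : P.comp (C t * X + C b) = C t * f.map φ + C b := by
      rw [hP, mul_comp, C_comp, hrel, ← mul_assoc, ← C_mul, inv_mul_cancel₀ he, C_1, one_mul]
    set g : L[X] := C t * (G.map φ).comp (C (t⁻¹ ^ m) * X) + C b with hg
    have hexp : Polynomial.expand L m g = P.comp (X + C b) := by
      have e1 : P.comp (X + C b) = (P.comp (C t * X + C b)).comp (C t⁻¹ * X) := by
        rw [comp_assoc]
        congr 1
        rw [add_comp, mul_comp, C_comp, C_comp, X_comp, ← mul_assoc, ← C_mul,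
          mul_inv_cancel₀ ht, C_1, one_mul]
      have e2 : (f.map φ) = (G.map φ).comp (X ^ m) := by
        rw [hf, map_expand, expand_eq_comp_X_pow]
      rw [e1, hPrel, add_comp, mul_comp, C_comp, C_comp, e2, comp_assoc, X_pow_comp, mul_pow,
        ← C_pow, hg, map_add, map_mul, expand_C, expand_C, expand_eq_comp_X_pow, comp_assoc,
        mul_comp, C_comp, X_comp]
    refine ⟨L, iL, ℤᵐ⁰, inferInstance, u, φ, t, -b, g, fun x y hxy => ?_, ht, ?_, ?_, ?_,
      fun x => ?_⟩
    · rw [hu, hu] at hxy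
      exact (pow_left_inj₀ zero_le zero_le hε).1 hxy
    · rw [hexp]
      exact ig_shift hPI hub
    · rw [Valuation.map_neg]
      exact hub
    · rw [hexp, natDegree_comp, natDegree_X_add_C, mul_one, hPd]
      exact hd
    · have h1 := hcj x
      rw [fg, add_zero] at h1
      rw [fg, hexp, eval_comp, eval_add, eval_X, eval_C, add_zero, h1]
      ring

/-- tame places give the abstract setting for polynomials in `x^m` -/
theorem sysS_of_tame (K : Type) [Field K] [NumberField K] (M N m : ℕ) (hM : 0 < M) (hN : N ≠ 0)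
    (hm : 3 ≤ m) (ζ : K) (hζ : IsPrimitiveRoot ζ m) :
    ∃ A : Finset K, (∀ a ∈ A, a ≠ 0) ∧ ∀ G : K[X], 2 ≤ (Polynomial.expand K m G).natDegree →
    ((∃ x, Pre (Polynomial.expand K m G) 0 x) → ∀ v : HeightOneSpectrum (𝓞 K),
      (N : 𝓞 K) ∉ v.asIdeal → Tame M (v.valuation K) (Polynomial.expand K m G)) →
    SysS A M m (fg (Polynomial.expand K m G) 0) {x | Pre (Polynomial.expand K m G) 0 x} := by
  have hN' : ((N * m : ℕ) : 𝓞 K) ≠ 0 := by
    have : N * m ≠ 0 := Nat.mul_ne_zero hN (by omega)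
    exact_mod_cast this
  obtain ⟨A, hA0, hA⟩ := HMW.p_SEL K M ((N * m : ℕ) : 𝓞 K) hM hN'
  refine ⟨A, hA0, fun G hd hf => ⟨fun x hx => pre_fg hx, fun x hx ω hω => pre_rot hω hx,
    fun ω x hω => fg_rot hω x, ?_⟩⟩
  intro p hp q hq p' hp' q' hq' h1 h2 hgood
  have hne : p' - q' ≠ 0 := sub_ne_zero.2 h2
  have hne1 : p - q ≠ 0 := sub_ne_zero.2 h1
  obtain ⟨a, ha, z, hz, hx⟩ := hA ((p - q) / (p' - q')) (div_ne_zero hne1 hne) fun v hv => by
    have hvN : (N : 𝓞 K) ∉ v.asIdeal := by
      intro hmem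
      apply hv
      rw [Nat.cast_mul]
      exact v.asIdeal.mul_mem_right _ hmem
    have hvm : (m : 𝓞 K) ∉ v.asIdeal := by
      intro hmem
      apply hv
      rw [Nat.cast_mul]
      exact v.asIdeal.mul_mem_left _ hmem
    have e1 : v.valuation K (p - q) ≠ 0 := ((v.valuation K).ne_zero_iff).mpr hne1
    have e2 : v.valuation K (p' - q') ≠ 0 := ((v.valuation K).ne_zero_iff).mpr hne
    rw [map_div₀, WithZero.log_div e1 e2]
    rcases tameS_cases (by omega) hζ.pow_eq_one (hζ.ne_one (by omega)) (val_one v m hvm) hd ⟨p, hp⟩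
      (hf ⟨p, hp⟩ v hvN) with h3 | h3
    · rw [hgood v h3, sub_self]
      exact dvd_zero _
    · exact h3 p q p' q' hp hq hp' hq' h1 h2
  refine ⟨a, ha, z, hz, ?_⟩
  rw [← hx, div_mul_cancel₀ _ hne]

end Pool.Agent.PDQ
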