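import Pool.Agent.PDQ.Def
import Pool.Agent.PDQ.Count

set_option autoImplicit false

/-!
# PDQ: tame places
-/

open Polynomial NumberField IsDedekindDomain
open scoped WithZero

noncomputable section

namespace Pool.Agent.PDQ

open Pool.Agent.PDP WithZero

section Rel

variable {K L : Type} [Field K] [Field L] {φ : K →+* L} {t b e : L} {F : L[X]} {f : K[X]}

lemma rel_deg (ht : t ≠ 0) (he : e ≠ 0)
    (h : F.comp (C t * X + C b) = C e * (C t * f.map φ + C b)) : F.natDegree = f.natDegree := by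
  have h1 := congrArg natDegree h
  rw [natDegree_comp, natDegree_linear ht, mul_one, natDegree_C_mul he, natDegree_add_C,
    natDegree_C_mul ht, natDegree_map] at h1
  exact h1

lemma rel_lead (ht : t ≠ 0) (he : e ≠ 0) (hd : f.natDegree ≠ 0)
    (h : F.comp (C t * X + C b) = C e * (C t * f.map φ + C b)) :
    F.leadingCoeff * t ^ f.natDegree = e * (t * φ f.leadingCoeff) := by
  have h0 := rel_deg ht he h
  have h1 := congrArg (fun p => coeff p f.natDegree) h
  have h2 : (F.comp (C t * X + C b)).natDegree = f.natDegree := by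
    rw [natDegree_comp, natDegree_linear ht, mul_one, h0]
  have h3 : (F.comp (C t * X + C b)).coeff f.natDegree = F.leadingCoeff * t ^ f.natDegree := by
    conv_lhs => rw [← h2]
    rw [coeff_natDegree, leadingCoeff_comp (by rw [natDegree_linear ht]; exact one_ne_zero),
      leadingCoeff_linear ht, h0]
  rw [h3, coeff_C_mul, coeff_add, coeff_C_mul, coeff_map, coeff_C_of_ne_zero hd, add_zero] at h1
  exact h1

lemma rel_eval (h : F.comp (C t * X + C b) = C e * (C t * f.map φ + C b)) (x : K) :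
    F.eval (t * φ x + b) = e * (t * φ (f.eval x) + b) := by
  have h1 := congrArg (eval (φ x)) h
  simp only [eval_comp, eval_add, eval_mul, eval_C, eval_X] at h1
  rw [h1, eval_map, eval₂_at_apply]

lemma rel_fg (he : e ≠ 0) (h : F.comp (C t * X + C b) = C e * (C t * f.map φ + C b)) (x : K) :
    fg (C e⁻¹ * F) 0 (t * φ x + b) = t * φ (fg f 0 x) + b := by
  rw [fg, fg, eval_mul, eval_C, rel_eval h, add_zero, add_zero, ← mul_assoc,
    inv_mul_cancel₀ he, one_mul]

lemma cj_pre {P : L[X]} (h : ∀ x, fg P 0 (t * φ x + b) = t * φ (fg f 0 x) + b) {x : K}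
    (hx : Pre f 0 x) : Pre P 0 (t * φ x + b) := by
  refine (hx.image fun y => t * φ y + b).subset ?_
  rintro _ ⟨k, rfl⟩
  exact ⟨(fg f 0)^[k] x, ⟨k, rfl⟩, (cj_it h k x).symm⟩

end Rel

section Loc

variable {K Γ : Type} [Field K] [LinearOrderedCommGroupWithZero Γ] {w : Valuation K Γ}
  {F : K[X]} {e : K}

lemma Qf_diag (y : K) : Qf F y y = F.derivative.eval y := by
  rw [derivative_eval, Polynomial.sum_over_range, Qf]
  · refine Finset.sum_congr rfl fun i _ => ?_
    have h1 : Si i y y = (i : K) * y ^ (i - 1) := by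
      unfold Si
      rw [← nsmul_eq_mul]
      conv_rhs => rw [← Finset.card_range i]
      rw [← Finset.sum_const]
      refine Finset.sum_congr rfl fun j hj => ?_
      rw [Finset.mem_range] at hj
      rw [← pow_add]
      congr 1
      rw [Finset.card_range]
      omega
    rw [h1]
    ring
  · intro n
    ring

/-- `F` preserves small distances to a point with unit derivative -/
lemma one_step (hF : IG w F) {x y : K} (hx : w x ≤ 1) (hy : w y ≤ 1) (hxy : w (x - y) < 1)
    (hd : w (F.derivative.eval y) = 1) : w (F.eval x - F.eval y) = w (x - y) := by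
  have h1 : Qf F x y * (x - y) = F.eval x - F.eval y := by
    rw [Qf_mul (c := (0 : K)), fg, fg, add_zero, add_zero]
  have h2 : w (Qf F x y) = 1 := by
    rw [← hd, ← Qf_diag]
    refine Valuation.map_eq_of_sub_lt w ?_
    rw [Qf_diag, hd]
    have := (Qf_sub_le hF hx hy hy).trans_lt hxy
    rwa [Qf_diag] at this
  rw [← h1, map_mul, h2, one_mul]

lemma fgP (x : K) : fg (C e⁻¹ * F) 0 x = F.eval x / e := by
  rw [fg, eval_mul, eval_C, add_zero, div_eq_inv_mul]

/-- points with finite orbit are integral -/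
lemma pre_int (hF : IG w F) (hD : 2 ≤ F.natDegree) (he0 : e ≠ 0) (he : w e ≤ 1) {y : K}
    (hy : Pre (C e⁻¹ * F) 0 y) : w y ≤ 1 := by
  by_contra hcon
  push Not at hcon
  have hw0 : 0 < w e := zero_lt_iff.2 ((Valuation.ne_zero_iff w).2 he0)
  have hstep : ∀ z, 1 < w z → w z < w (fg (C e⁻¹ * F) 0 z) := by
    intro z hz
    have hz0 : 0 < w z := zero_lt_one.trans hz
    rw [fgP, map_div₀, eval_gt hF hz]
    have h1 : w z < w z ^ F.natDegree := by
      conv_lhs => rw [← pow_one (w z)]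
      exact pow_lt_pow_right₀ hz (by omega)
    refine h1.trans_le ?_
    rw [le_div_iff₀ hw0]
    calc w z ^ F.natDegree * w e ≤ w z ^ F.natDegree * 1 := mul_le_mul_right he _
      _ = w z ^ F.natDegree := mul_one _
  have h3 : ∀ k : ℕ, 1 < w ((fg (C e⁻¹ * F) 0)^[k] y) := by
    intro k
    induction k with
    | zero => exact hcon
    | succ k ih =>
      rw [Function.iterate_succ_apply']
      exact ih.trans (hstep _ ih)
  have h4 : StrictMono fun k : ℕ => w ((fg (C e⁻¹ * F) 0)^[k] y) := by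
    refine strictMono_nat_of_lt_succ fun k => ?_
    rw [Function.iterate_succ_apply']
    exact hstep _ (h3 k)
  have h5 : Function.Injective fun k : ℕ => (fg (C e⁻¹ * F) 0)^[k] y := by
    intro a b hab
    exact h4.injective (congrArg w hab)
  exact Set.infinite_range_of_injective h5 hy

/-- the values of `F` at points with finite orbit -/
lemma val_lt (hF : IG w F) (hD : 2 ≤ F.natDegree) (he0 : e ≠ 0) (he : w e < 1) {y : K}
    (hy : Pre (C e⁻¹ * F) 0 y) : w (F.eval y) < 1 := by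
  have h1 := pre_int hF hD he0 he.le (pre_fg hy)
  have hw0 : 0 < w e := zero_lt_iff.2 ((Valuation.ne_zero_iff w).2 he0)
  rw [fgP, map_div₀, div_le_iff₀ hw0, one_mul] at h1
  exact h1.trans_lt he

end Loc

section Bad

variable {K L : Type} [Field K] [Field L] {u : Valuation L ℤᵐ⁰} {φ : K →+* L} {t b e : L}
  {F : L[X]} {f : K[X]}

/-- differences of points with finite orbits at a place where `e` is not a unit -/
lemma bad_log (ht : t ≠ 0) (hrel : F.comp (C t * X + C b) = C e * (C t * f.map φ + C b))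
    (hF : IG u F) (hD : 2 ≤ F.natDegree) (he0 : e ≠ 0) (he : u e < 1)
    (hsep : ∀ x : K, u (t * φ x + b) ≤ 1 → u (F.eval (t * φ x + b)) < 1 →
        u (F.derivative.eval (t * φ x + b)) = 1) {x y : K}
    (hx : Pre f 0 x) (hy : Pre f 0 y) (hxy : x ≠ y) :
    ∃ j : ℤ, log (u (t * φ (x - y))) = j * log (u e) := by
  have hwe : u e ≠ 0 := (Valuation.ne_zero_iff u).2 he0
  have hcj := rel_fg he0 hrel
  have hint : ∀ z : K, Pre f 0 z → u (t * φ z + b) ≤ 1 := fun z hz =>
    pre_int hF hD he0 he.le (cj_pre hcj hz)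
  have hdiff : ∀ z z' : K, t * φ z + b - (t * φ z' + b) = t * φ (z - z') := fun z z' => by
    rw [map_sub]; ring
  have hle : ∀ z z' : K, Pre f 0 z → Pre f 0 z' → u (t * φ (z - z')) ≤ 1 := by
    intro z z' hz hz'
    rw [← hdiff]
    exact (Valuation.map_sub u _ _).trans (max_le (hint z hz) (hint z' hz'))
  have hn0 : ∀ z z' : K, z ≠ z' → u (t * φ (z - z')) ≠ 0 := by
    intro z z' hzz
    exact (Valuation.ne_zero_iff u).2
      (mul_ne_zero ht ((_root_.map_ne_zero φ).2 (sub_ne_zero.2 hzz)))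
  have hloge : log (u e) < 0 := by
    have := (log_lt_log hwe one_ne_zero).2 he
    rwa [log_one] at this
  have claim : ∀ n : ℕ, ∀ z z' : K, Pre f 0 z → Pre f 0 z' → z ≠ z' →
      -log (u (t * φ (z - z'))) = n → ∃ j : ℤ, log (u (t * φ (z - z'))) = j * log (u e) := by
    intro n
    induction n using Nat.strong_induction_on with
    | _ n ih =>
      intro z z' hz hz' hzz hn
      have hw0 := hn0 z z' hzz
      rcases (hle z z' hz hz').lt_or_eq with hlt | heq
      · have h1 := one_step hF (hint z hz) (hint z' hz') (by rw [hdiff]; exact hlt)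
          (hsep z' (hint z' hz') (val_lt hF hD he0 he (cj_pre hcj hz')))
        have h2 : u (t * φ (fg f 0 z - fg f 0 z')) = u (t * φ (z - z')) / u e := by
          rw [← hdiff, ← hcj, ← hcj, fgP, fgP, ← sub_div, map_div₀, h1, hdiff]
        have hw1 : u (t * φ (fg f 0 z - fg f 0 z')) ≠ 0 := by
          rw [h2]
          exact div_ne_zero hw0 hwe
        have hne2 : fg f 0 z ≠ fg f 0 z' := by
          intro h
          apply hw1
          rw [h, sub_self, map_zero, mul_zero, map_zero]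
        have hlog : log (u (t * φ (fg f 0 z - fg f 0 z'))) =
            log (u (t * φ (z - z'))) - log (u e) := by
          rw [h2, log_div hw0 hwe]
        have h3 : log (u (t * φ (fg f 0 z - fg f 0 z'))) ≤ 0 := by
          have := (log_le_log hw1 one_ne_zero).2 (hle _ _ (pre_fg hz) (pre_fg hz'))
          rwa [log_one] at this
        obtain ⟨j, hj⟩ := ih (-log (u (t * φ (fg f 0 z - fg f 0 z')))).toNat (by omega) _ _
          (pre_fg hz) (pre_fg hz') hne2 (by rw [Int.toNat_of_nonneg (by omega)])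
        rw [hlog] at hj
        exact ⟨j + 1, by rw [add_mul, one_mul, ← hj]; ring⟩
      · exact ⟨0, by rw [heq, log_one, zero_mul]⟩
  have h3 : log (u (t * φ (x - y))) ≤ 0 := by
    have := (log_le_log (hn0 x y hxy) one_ne_zero).2 (hle x y hx hy)
    rwa [log_one] at this
  exact claim (-log (u (t * φ (x - y)))).toNat x y hx hy hxy
    (by rw [Int.toNat_of_nonneg (by omega)])

end Bad

lemma arith_a {τ E a b j j' : ℤ} {M ε : ℕ} (hε : ε ≠ 0) (h1 : τ + ε * a = j * E)
    (h2 : τ + ε * b = j' * E) (hE : E = M * τ) : (M : ℤ) ∣ a - b := by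
  have hε' : (ε : ℤ) ≠ 0 := by exact_mod_cast hε
  have h3 : (ε : ℤ) * (a * (j' * M - 1)) = ε * (b * (j * M - 1)) := by
    rw [hE] at h1 h2
    linear_combination (j' * M - 1) * h1 - (j * M - 1) * h2
  have h4 := mul_left_cancel₀ hε' h3
  exact ⟨a * j' - b * j, by linear_combination -h4⟩

lemma arith_b {τ E a b j j' : ℤ} {M ε : ℕ} (hε : ε ≠ 0) (h1 : τ + ε * a = j * E)
    (h2 : τ + ε * b = j' * E) (hE : (M : ℤ) * ε ∣ E) : (M : ℤ) ∣ a - b := by
  have hε' : (ε : ℤ) ≠ 0 := by exact_mod_cast hε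
  obtain ⟨k, hk⟩ := hE
  refine ⟨(j - j') * k, mul_left_cancel₀ hε' ?_⟩
  rw [hk] at h1 h2
  linear_combination h1 - h2

/-- differences of points with finite orbits where `e` is not a unit -/
lemma bad_case {K L : Type} [Field K] [Field L] {M : ℕ} {w : Valuation K ℤᵐ⁰} {f : K[X]}
    (hd : 2 ≤ f.natDegree) {u : Valuation L ℤᵐ⁰} {φ : K →+* L} {ε : ℕ} {t b e : L} {F : L[X]}
    (hε : ε ≠ 0) (hu : ∀ x, u (φ x) = w x ^ ε) (ht : t ≠ 0) (he : e ≠ 0)
    (hrel : F.comp (C t * X + C b) = C e * (C t * f.map φ + C b))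
    (hF : IG u F) (hlt : u e < 1)
    (hM : M + 1 = f.natDegree ∧ (M : ℤ) ∣ log (w f.leadingCoeff) ∨ (M : ℤ) * ε ∣ log (u e))
    (hsep : ∀ x : K, u (t * φ x + b) ≤ 1 → u (F.eval (t * φ x + b)) < 1 →
        u (F.derivative.eval (t * φ x + b)) = 1) {p q p' q' : K}
    (hp : Pre f 0 p) (hq : Pre f 0 q) (hp' : Pre f 0 p') (hq' : Pre f 0 q')
    (h1 : p ≠ q) (h2 : p' ≠ q') : (M : ℤ) ∣ log (w (p - q)) - log (w (p' - q')) := by
  have hdeg : F.natDegree = f.natDegree := rel_deg ht he hrel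
  have key : ∀ r s : K, Pre f 0 r → Pre f 0 s → r ≠ s →
      ∃ j : ℤ, log (u t) + ε * log (w (r - s)) = j * log (u e) := by
    intro r s hr hs hrs
    obtain ⟨j, hj⟩ := bad_log ht hrel hF (by omega) he hlt hsep hr hs hrs
    have hw0 : w (r - s) ≠ 0 := (Valuation.ne_zero_iff w).2 (sub_ne_zero.2 hrs)
    rw [map_mul, hu, log_mul ((Valuation.ne_zero_iff _).2 ht) (pow_ne_zero _ hw0), log_pow,
      nsmul_eq_mul] at hj
    exact ⟨j, hj⟩
  obtain ⟨j, hj⟩ := key p q hp hq h1
  obtain ⟨j', hj'⟩ := key p' q' hp' hq' h2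
  rcases hM with ⟨hMd, hlead⟩ | hM
  · obtain ⟨l, hl⟩ := hlead
    have hf0 : f ≠ 0 := by
      rintro rfl
      rw [natDegree_zero] at hd
      omega
    have h3 := congrArg u (rel_lead ht he (by omega) hrel)
    rw [map_mul, map_mul, map_mul, map_pow, hF.2, hu, one_mul] at h3
    have h4 := congrArg log h3
    have ht0 : u t ≠ 0 := (Valuation.ne_zero_iff _).2 ht
    have he0 : u e ≠ 0 := (Valuation.ne_zero_iff _).2 he
    have hw0 : w f.leadingCoeff ≠ 0 := (Valuation.ne_zero_iff _).2 (leadingCoeff_ne_zero.2 hf0)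
    rw [log_pow, log_mul he0 (mul_ne_zero ht0 (pow_ne_zero _ hw0)),
      log_mul ht0 (pow_ne_zero _ hw0), log_pow, nsmul_eq_mul, nsmul_eq_mul, ← hMd, hl] at h4
    push_cast at h4
    have h5 := arith_a (τ := log (u t) - ε * l) (E := log (u e)) (a := log (w (p - q)) + l)
      (b := log (w (p' - q')) + l) (j := j) (j' := j') (M := M) hε
      (by linear_combination hj) (by linear_combination hj') (by linear_combination -h4)
    have h6 : log (w (p - q)) + l - (log (w (p' - q')) + l) =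
        log (w (p - q)) - log (w (p' - q')) := by ring
    rwa [h6] at h5
  · exact arith_b hε hj hj' hM

/-- the two cases of a tame place -/
lemma tame_cases {K : Type} [Field K] {M : ℕ} {w : Valuation K ℤᵐ⁰} {f : K[X]}
    (hd : 2 ≤ f.natDegree) (h : Tame M w f) :
    GP w (fg f 0) ∨ ∀ p q p' q' : K, Pre f 0 p → Pre f 0 q → Pre f 0 p' → Pre f 0 q' →
      p ≠ q → p' ≠ q' → (M : ℤ) ∣ log (w (p - q)) - log (w (p' - q')) := by
  obtain ⟨L, iL, u, φ, ε, t, b, e, F, hε, hu, ht, he, hrel, hF1, hF2, he1, hbad⟩ := h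
  have hdeg : F.natDegree = f.natDegree := rel_deg ht he hrel
  rcases he1.lt_or_eq with hlt | heq
  · refine Or.inr fun p q p' q' hp hq hp' hq' h1 h2 => ?_
    exact bad_case hd hε hu ht he hrel ⟨hF1, hF2⟩ hlt (hbad hlt).1 (hbad hlt).2 hp hq hp' hq' h1 h2
  · refine Or.inl ⟨L, iL, ℤᵐ⁰, inferInstance, u, φ, t, b, 0, C e⁻¹ * F, fun x y hxy => ?_, ht,
      ⟨fun i => ?_, ?_⟩, ?_, ?_, rel_fg he hrel⟩
    · rw [hu, hu] at hxy
      exact (pow_left_inj₀ zero_le zero_le hε).1 hxy
    · rw [coeff_C_mul, map_mul, map_inv₀, heq, inv_one, one_mul]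
      exact hF1 i
    · rw [leadingCoeff_mul, leadingCoeff_C, map_mul, map_inv₀, heq, inv_one, one_mul]
      exact hF2
    · rw [map_zero]
      exact zero_le
    · rw [natDegree_C_mul (inv_ne_zero he), hdeg]
      exact hd

/-- tame places give the abstract setting -/
theorem sys_of_tame (K : Type) [Field K] [NumberField K] (M N : ℕ) (hM : 0 < M) (hN : N ≠ 0) :
    ∃ A : Finset K, (∀ a ∈ A, a ≠ 0) ∧ ∀ f : K[X], 2 ≤ f.natDegree →
    ((∃ x, Pre f 0 x) → ∀ v : HeightOneSpectrum (𝓞 K), (N : 𝓞 K) ∉ v.asIdeal →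
      Tame M (v.valuation K) f) →
    Sys A M (fg f 0) {x | Pre f 0 x} := by
  have hN' : ((N : ℕ) : 𝓞 K) ≠ 0 := by exact_mod_cast hN
  obtain ⟨A, hA0, hA⟩ := HMW.p_SEL K M ((N : ℕ) : 𝓞 K) hM hN'
  refine ⟨A, hA0, fun f hd hf => ⟨fun x hx => pre_fg hx, ?_⟩⟩
  intro p hp q hq p' hp' q' hq' h1 h2 hgood
  have hne : p' - q' ≠ 0 := sub_ne_zero.2 h2
  have hne1 : p - q ≠ 0 := sub_ne_zero.2 h1
  obtain ⟨a, ha, z, hz, hx⟩ := hA ((p - q) / (p' - q')) (div_ne_zero hne1 hne) fun v hv => by
    have e1 : v.valuation K (p - q) ≠ 0 := ((v.valuation K).ne_zero_iff).mpr hne1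
    have e2 : v.valuation K (p' - q') ≠ 0 := ((v.valuation K).ne_zero_iff).mpr hne
    rw [map_div₀, WithZero.log_div e1 e2]
    rcases tame_cases hd (hf ⟨p, hp⟩ v hv) with h3 | h3
    · rw [hgood v h3, sub_self]
      exact dvd_zero _
    · exact h3 p q p' q' hp hq hp' hq' h1 h2
  refine ⟨a, ha, z, hz, ?_⟩
  rw [← hx, div_mul_cancel₀ _ hne]

end Pool.Agent.PDQ
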